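import Pool.Agent.W_448co_h5.PartD

/-! The pole bound of one part, and the second order lemma: the number `D ^ 2 - 2 own` is additive
under products of clean series. -/

namespace Pool.Agent.GaussPoset.Win

set_option linter.unusedSectionVars false

open Finset

universe u

section pole

variable {P : Type u} [Fintype P] [PartialOrder P] [DecidableEq P] {r : ℕ}

variable {i : ℕ} {C : Finset P} {e : P → ℕ}

/-- one factor `d` is always left: the largest label sits on a free element or on a site which is
not forced -/
theorem exp_pos (H : Gr P r) (hC : Part i C) (he : Spt C e) (hne : (st i C).Nonempty)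
    (hd : Disjoint (AL i e) (AU i e)) :
    1 ≤ pL i e + pU i e + ((st i C).card - (AL i e).card - (AU i e).card) := by
  classical
  by_contra hcon
  have h0 : pL i e = 0 ∧ pU i e = 0 ∧ (st i C).card - (AL i e).card - (AU i e).card = 0 := by
    omega
  obtain ⟨hpL, hpU, hst⟩ := h0
  have hcard := card_le_st H hC he hd
  have hall : ∀ v ∈ st i C, v ∈ AL i e ∨ v ∈ AU i e := by
    have hsub : AL i e ∪ AU i e ⊆ st i C := union_subset (AL_sub hC he) (AU_sub H hC he)
    have heq : AL i e ∪ AU i e = st i C := by
      apply Finset.eq_of_subset_of_card_le hsub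
      rw [card_union_of_disjoint hd]
      omega
    intro v hv
    rw [← heq, mem_union] at hv
    exact hv
  obtain ⟨v0, hv0⟩ := hne
  obtain ⟨x0, -, hx0⟩ := Finset.exists_max_image (univ : Finset P) e ⟨v0, mem_univ v0⟩
  set m := e x0 with hm
  have hmax : ∀ x, e x ≤ m := fun x => hx0 x (mem_univ x)
  have noFD : ∀ x, e x = m → ¬ FD e x := by
    rintro x hx ⟨z, _, hz⟩
    have := hmax z
    omega
  have noFU : ∀ x, e x = m → ¬ FU e x := by
    rintro x hx ⟨z, _, hz⟩
    have := hmax z
    omega
  -- no site of `C` has the largest label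
  have nosite : ∀ v, v ∈ C → lev v = i → e v ≠ m := by
    intro v hv hl hev
    rcases hall v (mem_st.2 ⟨hv, hl⟩) with h | h
    · rw [NormD_mem_AL] at h
      exact noFD v hev h.2
    · rw [NormD_mem_AU] at h
      exact noFU v hev h.2
  have hmpos : 0 < m := by
    rw [mem_st] at hv0
    have h1 := nosite v0 hv0.1 hv0.2
    have h2 := hmax v0
    omega
  have inC : ∀ x, e x = m → x ∈ C := by
    intro x hx
    by_contra h
    rw [he x h] at hx
    omega
  -- lower elements
  have low : ∀ n, ∀ x, lev x = i + n → e x ≠ m := by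
    intro n
    induction n with
    | zero => exact fun x hx hxm => nosite x (inC x hxm) hx hxm
    | succ n ih =>
      intro x hx hxm
      have h1 : ¬ (¬ FD e x ∧ ¬ GU e x) := by
        intro h
        have : 0 < pL i e := by
          unfold pL
          rw [Finset.card_pos]
          exact ⟨x, by rw [mem_filter]; exact ⟨mem_univ x, by omega, h.1, h.2⟩⟩
        omega
      have h2 : GU e x := by
        by_contra h
        exact h1 ⟨noFD x hxm, h⟩
      obtain ⟨y, hy, hle⟩ := h2
      have h3 := lev_uc H (mem_uc.2 hy)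
      have h4 := hmax y
      exact ih y (by omega) (by omega)
  have upp : ∀ n, ∀ x, lev x + n = i → e x ≠ m := by
    intro n
    induction n with
    | zero => exact fun x hx hxm => nosite x (inC x hxm) hx hxm
    | succ n ih =>
      intro x hx hxm
      have h1 : ¬ (¬ FU e x ∧ ¬ GD e x) := by
        intro h
        have : 0 < pU i e := by
          unfold pU
          rw [Finset.card_pos]
          exact ⟨x, by rw [mem_filter]; exact ⟨mem_univ x, by omega, h.1, h.2⟩⟩
        omega
      have h2 : GD e x := by
        by_contra h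
        exact h1 ⟨noFU x hxm, h⟩
      obtain ⟨y, hy, hle⟩ := h2
      have h3 := lev_dc H (mem_dc.2 hy)
      have h4 := hmax y
      exact ih y (by omega) (by omega)
  rcases Nat.le_total i (lev x0) with h | h
  · exact low (lev x0 - i) x0 (by omega) rfl
  · exact upp (i - lev x0) x0 (by omega) rfl

/-- every term of a part with a site has a factor `d` -/
theorem dd_dvd_tC (H : Gr P r) (hC : Part i C) (he : Spt C e)
    (hne : (st i C).Nonempty) : dd ∣ tC i C e := by
  unfold tC cw
  split_ifs with h1 h2
  · have h3 := exp_pos H hC he hne h1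
    have h4 : xx ^ aL i e * xi ^ (aU i e + pU i e) * dd ^ (pL i e + pU i e) *
        (xx ^ (AL i e).card * dd ^ ((st i C).card - (AL i e).card - (AU i e).card)) =
        dd ^ (pL i e + pU i e + ((st i C).card - (AL i e).card - (AU i e).card)) *
          (xx ^ aL i e * xi ^ (aU i e + pU i e) * xx ^ (AL i e).card) := by
      rw [pow_add dd (pL i e + pU i e)]
      ring
    rw [h4]
    exact Dvd.dvd.mul_right (dvd_pow_self dd (by omega)) _
  · rw [zero_mul]; exact dvd_zero _
  · exact dvd_zero _

theorem dd_dvd_ZC (H : Gr P r) (hC : Part i C) (hne : (st i C).Nonempty) (n : ℕ) :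
    dd ∣ ZC i C n := by
  unfold ZC
  exact Finset.dvd_sum fun e he => dd_dvd_tC H hC (spt_of_mem he) hne

end pole

section algebra

lemma coeff_zero_mul' {R : Type*} [Semiring R] (x y : PowerSeries R) :
    PowerSeries.coeff 0 (x * y) = PowerSeries.coeff 0 x * PowerSeries.coeff 0 y := by
  rw [PowerSeries.coeff_mul, Finset.HasAntidiagonal.antidiagonal_zero, Finset.sum_singleton]

lemma coeff_mul_lead {m n : ℕ} {x y : A} (hx : dd ^ m ∣ x) (hy : dd ^ n ∣ y) :
    PowerSeries.coeff (m + n) (x * y) = PowerSeries.coeff m x * PowerSeries.coeff n y := by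
  obtain ⟨x', rfl⟩ := hx
  obtain ⟨y', rfl⟩ := hy
  have h1 : dd ^ m * x' * (dd ^ n * y') = dd ^ (m + n) * (x' * y') := by
    rw [pow_add]; ring
  rw [h1]
  unfold dd
  have h2 : ∀ (k : ℕ) (z : A), PowerSeries.coeff k (PowerSeries.X ^ k * z) =
      PowerSeries.coeff 0 z := by
    intro k z
    have := PowerSeries.coeff_X_pow_mul z k 0
    rwa [zero_add] at this
  rw [h2, h2, h2, coeff_zero_mul']

lemma coeff_lead_zero {m : ℕ} {x : A} (hx : dd ^ (m + 1) ∣ x) : PowerSeries.coeff m x = 0 := by
  have h := PowerSeries.X_pow_dvd_iff.1 (show (PowerSeries.X : A) ^ (m + 1) ∣ x from hx)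
  exact h m (Nat.lt_succ_self m)

/-- a series with `b` sites which is clean below the energy `eps`, has at most simple poles below
`2 eps` and at most a double pole at `2 eps` -/
structure Ord2 (b eps : ℕ) (f : PowerSeries A) : Prop where
  zero : PowerSeries.coeff 0 f = dd ^ b
  one : ∀ n, n < eps → dd ^ b ∣ PowerSeries.coeff n f
  two : ∀ n, n < 2 * eps → dd ^ b ∣ dd * PowerSeries.coeff n f
  three : dd ^ b ∣ dd ^ 2 * PowerSeries.coeff (2 * eps) f

/-- the first order number: coefficient of `q ^ n / d` -/
noncomputable def fst1 (b n : ℕ) (f : PowerSeries A) : ℤ :=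
  PowerSeries.coeff b (dd * PowerSeries.coeff n f)

/-- the own second order number: coefficient of `q ^ n / d ^ 2` -/
noncomputable def snd2 (b n : ℕ) (f : PowerSeries A) : ℤ :=
  PowerSeries.coeff b (dd ^ 2 * PowerSeries.coeff n f)

lemma fst1_eq_zero {b n : ℕ} {f : PowerSeries A} (h : dd ^ b ∣ PowerSeries.coeff n f) :
    fst1 b n f = 0 := by
  unfold fst1
  apply coeff_lead_zero
  rw [pow_succ']
  exact mul_dvd_mul_left dd h

lemma snd2_eq_zero {b n : ℕ} {f : PowerSeries A} (h : dd ^ b ∣ dd * PowerSeries.coeff n f) :
    snd2 b n f = 0 := by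
  unfold snd2
  apply coeff_lead_zero
  rw [pow_succ', pow_two, mul_assoc]
  exact mul_dvd_mul_left dd h

variable {b c eps : ℕ} {f g : PowerSeries A}

theorem Ord2.unit : Ord2 0 eps (1 : PowerSeries A) where
  zero := by simp
  one := fun n _ => by simp
  two := fun n _ => by simp
  three := by simp

theorem Ord2.mul (he : 1 ≤ eps) (hf : Ord2 b eps f) (hg : Ord2 c eps g) :
    Ord2 (b + c) eps (f * g) ∧ fst1 (b + c) eps (f * g) = fst1 b eps f + fst1 c eps g ∧
      snd2 (b + c) (2 * eps) (f * g) =
        snd2 b (2 * eps) f + snd2 c (2 * eps) g + fst1 b eps f * fst1 c eps g := by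
  have hz : PowerSeries.coeff 0 (f * g) = dd ^ (b + c) := by
    rw [coeff_zero_mul', hf.zero, hg.zero, pow_add]
  have hone : ∀ n, n < eps → dd ^ (b + c) ∣ PowerSeries.coeff n (f * g) := by
    intro n hn
    rw [PowerSeries.coeff_mul, pow_add]
    refine Finset.dvd_sum fun p hp => ?_
    rw [Finset.HasAntidiagonal.mem_antidiagonal] at hp
    exact mul_dvd_mul (hf.one p.1 (by omega)) (hg.one p.2 (by omega))
  -- products of two terms, one factor `d`
  have t1 : ∀ p : ℕ × ℕ, p.1 + p.2 < 2 * eps →
      dd ^ (b + c) ∣ dd * (PowerSeries.coeff p.1 f * PowerSeries.coeff p.2 g) := by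
    intro p hp
    rcases Nat.lt_or_ge p.1 eps with h | h
    · have h1 := hf.one p.1 h
      have h2 := hg.two p.2 (by omega)
      have : dd * (PowerSeries.coeff p.1 f * PowerSeries.coeff p.2 g) =
          PowerSeries.coeff p.1 f * (dd * PowerSeries.coeff p.2 g) := by ring
      rw [this, pow_add]
      exact mul_dvd_mul h1 h2
    · have h1 := hf.two p.1 (by omega)
      have h2 := hg.one p.2 (by omega)
      have : dd * (PowerSeries.coeff p.1 f * PowerSeries.coeff p.2 g) =
          (dd * PowerSeries.coeff p.1 f) * PowerSeries.coeff p.2 g := by ring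
      rw [this, pow_add]
      exact mul_dvd_mul h1 h2
  have htwo : ∀ n, n < 2 * eps → dd ^ (b + c) ∣ dd * PowerSeries.coeff n (f * g) := by
    intro n hn
    rw [PowerSeries.coeff_mul, Finset.mul_sum]
    refine Finset.dvd_sum fun p hp => ?_
    rw [Finset.HasAntidiagonal.mem_antidiagonal] at hp
    exact t1 p (by omega)
  have t2 : ∀ p : ℕ × ℕ, p.1 + p.2 = 2 * eps → 
      dd ^ (b + c) ∣ dd ^ 2 * (PowerSeries.coeff p.1 f * PowerSeries.coeff p.2 g) := by
    intro p hp
    rcases Nat.eq_zero_or_pos p.1 with h | h
    · have h2 : p.2 = 2 * eps := by omega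
      rw [h, h2, hf.zero]
      have : dd ^ 2 * (dd ^ b * PowerSeries.coeff (2 * eps) g) =
          dd ^ b * (dd ^ 2 * PowerSeries.coeff (2 * eps) g) := by ring
      rw [this, pow_add]
      exact mul_dvd_mul_left _ hg.three
    · rcases Nat.eq_zero_or_pos p.2 with h' | h'
      · have h2 : p.1 = 2 * eps := by omega
        rw [h', h2, hg.zero]
        have : dd ^ 2 * (PowerSeries.coeff (2 * eps) f * dd ^ c) =
            (dd ^ 2 * PowerSeries.coeff (2 * eps) f) * dd ^ c := by ring
        rw [this, pow_add]
        exact mul_dvd_mul_right hf.three _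
      · have : dd ^ 2 * (PowerSeries.coeff p.1 f * PowerSeries.coeff p.2 g) =
            (dd * PowerSeries.coeff p.1 f) * (dd * PowerSeries.coeff p.2 g) := by ring
        rw [this, pow_add]
        exact mul_dvd_mul (hf.two p.1 (by omega)) (hg.two p.2 (by omega))
  have hthree : dd ^ (b + c) ∣ dd ^ 2 * PowerSeries.coeff (2 * eps) (f * g) := by
    rw [PowerSeries.coeff_mul, Finset.mul_sum]
    refine Finset.dvd_sum fun p hp => ?_
    rw [Finset.HasAntidiagonal.mem_antidiagonal] at hp
    exact t2 p hp
  refine ⟨⟨hz, hone, htwo, hthree⟩, ?_, ?_⟩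
  · -- first order
    unfold fst1
    rw [PowerSeries.coeff_mul eps f g, Finset.mul_sum, map_sum]
    have key : ∀ p ∈ antidiagonal eps,
        PowerSeries.coeff (b + c) (dd * (PowerSeries.coeff p.1 f * PowerSeries.coeff p.2 g)) =
          (if p = (0, eps) then PowerSeries.coeff c (dd * PowerSeries.coeff eps g) else 0) +
          (if p = (eps, 0) then PowerSeries.coeff b (dd * PowerSeries.coeff eps f) else 0) := by
      intro p hp
      rw [Finset.HasAntidiagonal.mem_antidiagonal] at hp
      by_cases h1 : p = (0, eps)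
      · subst h1
        rw [if_pos rfl, if_neg (by rw [Prod.mk.injEq]; omega), add_zero]
        have : dd * (PowerSeries.coeff (0, eps).1 f * PowerSeries.coeff (0, eps).2 g) =
            PowerSeries.coeff 0 f * (dd * PowerSeries.coeff eps g) := by ring
        rw [this, coeff_mul_lead (by rw [hf.zero]) (hg.two eps (by omega)), hf.zero]
        unfold dd
        rw [PowerSeries.coeff_X_pow_self, one_mul]
      · by_cases h2 : p = (eps, 0)
        · subst h2
          rw [if_neg h1, if_pos rfl, zero_add]
          have : dd * (PowerSeries.coeff (eps, 0).1 f * PowerSeries.coeff (eps, 0).2 g) =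
              (dd * PowerSeries.coeff eps f) * PowerSeries.coeff 0 g := by ring
          rw [this, coeff_mul_lead (hf.two eps (by omega)) (by rw [hg.zero]), hg.zero]
          unfold dd
          rw [PowerSeries.coeff_X_pow_self, mul_one]
        · rw [if_neg h1, if_neg h2, add_zero]
          have h3 : p.1 ≠ 0 := by
            intro h
            apply h1
            ext
            · exact h
            · simp only; omega
          have h4 : p.2 ≠ 0 := by
            intro h
            apply h2
            ext
            · simp only; omega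
            · exact h
          apply coeff_lead_zero
          rw [pow_succ']
          apply mul_dvd_mul_left
          rw [pow_add]
          exact mul_dvd_mul (hf.one p.1 (by omega)) (hg.one p.2 (by omega))
    rw [Finset.sum_congr rfl key, Finset.sum_add_distrib, Finset.sum_ite_eq', Finset.sum_ite_eq',
      if_pos (by simp), if_pos (by simp), add_comm]
  · -- second order
    unfold snd2 fst1
    rw [PowerSeries.coeff_mul (2 * eps) f g, Finset.mul_sum, map_sum]
    have key : ∀ p ∈ antidiagonal (2 * eps),
        PowerSeries.coeff (b + c) (dd ^ 2 * (PowerSeries.coeff p.1 f * PowerSeries.coeff p.2 g)) =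
          (if p = (0, 2 * eps) then
            PowerSeries.coeff c (dd ^ 2 * PowerSeries.coeff (2 * eps) g) else 0) +
          (if p = (2 * eps, 0) then
            PowerSeries.coeff b (dd ^ 2 * PowerSeries.coeff (2 * eps) f) else 0) +
          (if p = (eps, eps) then
            PowerSeries.coeff b (dd * PowerSeries.coeff eps f) *
              PowerSeries.coeff c (dd * PowerSeries.coeff eps g) else 0) := by
      intro p hp
      rw [Finset.HasAntidiagonal.mem_antidiagonal] at hp
      by_cases h1 : p = (0, 2 * eps)
      · subst h1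
        rw [if_pos rfl, if_neg (by rw [Prod.mk.injEq]; omega),
          if_neg (by rw [Prod.mk.injEq]; omega), add_zero, add_zero]
        have : dd ^ 2 * (PowerSeries.coeff (0, 2 * eps).1 f * PowerSeries.coeff (0, 2 * eps).2 g) =
            PowerSeries.coeff 0 f * (dd ^ 2 * PowerSeries.coeff (2 * eps) g) := by ring
        rw [this, coeff_mul_lead (by rw [hf.zero]) hg.three, hf.zero]
        unfold dd
        rw [PowerSeries.coeff_X_pow_self, one_mul]
      · by_cases h2 : p = (2 * eps, 0)
        · subst h2
          rw [if_neg h1, if_pos rfl, if_neg (by rw [Prod.mk.injEq]; omega), zero_add, add_zero]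
          have : dd ^ 2 * (PowerSeries.coeff (2 * eps, 0).1 f *
              PowerSeries.coeff (2 * eps, 0).2 g) =
              (dd ^ 2 * PowerSeries.coeff (2 * eps) f) * PowerSeries.coeff 0 g := by ring
          rw [this, coeff_mul_lead hf.three (by rw [hg.zero]), hg.zero]
          unfold dd
          rw [PowerSeries.coeff_X_pow_self, mul_one]
        · rw [if_neg h1, if_neg h2, zero_add, zero_add]
          have h3 : p.1 ≠ 0 := by
            intro h
            apply h1
            ext
            · exact h
            · simp only; omega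
          have h4 : p.2 ≠ 0 := by
            intro h
            apply h2
            ext
            · simp only; omega
            · exact h
          have h5 : dd ^ 2 * (PowerSeries.coeff p.1 f * PowerSeries.coeff p.2 g) =
              (dd * PowerSeries.coeff p.1 f) * (dd * PowerSeries.coeff p.2 g) := by ring
          rw [h5, coeff_mul_lead (hf.two p.1 (by omega)) (hg.two p.2 (by omega))]
          by_cases h6 : p = (eps, eps)
          · subst h6
            rw [if_pos rfl]
          · rw [if_neg h6]
            have h7 : p.1 ≠ eps := by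
              intro h
              apply h6
              ext
              · exact h
              · simp only; omega
            rcases Nat.lt_or_ge p.1 eps with h | h
            · have := fst1_eq_zero (hf.one p.1 h)
              unfold fst1 at this
              rw [this, zero_mul]
            · have := fst1_eq_zero (hg.one p.2 (by omega))
              unfold fst1 at this
              rw [this, mul_zero]
    rw [Finset.sum_congr rfl key, Finset.sum_add_distrib, Finset.sum_add_distrib,
      Finset.sum_ite_eq', Finset.sum_ite_eq', Finset.sum_ite_eq',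
      if_pos (by simp), if_pos (by simp), if_pos (by rw [Finset.HasAntidiagonal.mem_antidiagonal]; omega)]
    ring

/-- first and second order numbers of a product -/
theorem Ord2.prod {ι : Type*} [DecidableEq ι] (he : 1 ≤ eps) (s : Finset ι)
    (f : ι → PowerSeries A) (b : ι → ℕ) (hf : ∀ a ∈ s, Ord2 (b a) eps (f a)) :
    Ord2 (∑ a ∈ s, b a) eps (∏ a ∈ s, f a) ∧
      fst1 (∑ a ∈ s, b a) eps (∏ a ∈ s, f a) = ∑ a ∈ s, fst1 (b a) eps (f a) ∧
      fst1 (∑ a ∈ s, b a) eps (∏ a ∈ s, f a) ^ 2 -
          2 * snd2 (∑ a ∈ s, b a) (2 * eps) (∏ a ∈ s, f a) =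
        ∑ a ∈ s, (fst1 (b a) eps (f a) ^ 2 - 2 * snd2 (b a) (2 * eps) (f a)) := by
  induction s using Finset.induction_on with
  | empty =>
    have h1 : fst1 0 eps (1 : PowerSeries A) = 0 := by
      unfold fst1
      rw [PowerSeries.coeff_one, if_neg (by omega), mul_zero, map_zero]
    have h2 : snd2 0 (2 * eps) (1 : PowerSeries A) = 0 := by
      unfold snd2
      rw [PowerSeries.coeff_one, if_neg (by omega), mul_zero, map_zero]
    simp only [Finset.sum_empty, Finset.prod_empty]
    exact ⟨Ord2.unit, h1, by rw [h1, h2]; norm_num⟩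
  | insert a s ha ih =>
    obtain ⟨h1, h2, h3⟩ := ih fun a' ha' => hf a' (mem_insert_of_mem ha')
    obtain ⟨h4, h5, h6⟩ := (hf a (mem_insert_self a s)).mul he h1
    rw [Finset.sum_insert ha, Finset.sum_insert ha, Finset.sum_insert ha, Finset.prod_insert ha]
    refine ⟨h4, by rw [h5, h2], ?_⟩
    rw [h5, h6, ← h3]
    ring

/-- SECOND ORDER LEMMA: if the product is clean then the first order numbers sum to zero and the
numbers `D ^ 2 - 2 own` sum to zero. -/
theorem second_order {ι : Type*} [DecidableEq ι] (he : 1 ≤ eps) (s : Finset ι)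
    (f : ι → PowerSeries A) (b : ι → ℕ) (hf : ∀ a ∈ s, Ord2 (b a) eps (f a))
    (h1 : dd ^ (∑ a ∈ s, b a) ∣ PowerSeries.coeff eps (∏ a ∈ s, f a))
    (h2 : dd ^ (∑ a ∈ s, b a) ∣ PowerSeries.coeff (2 * eps) (∏ a ∈ s, f a)) :
    ∑ a ∈ s, fst1 (b a) eps (f a) = 0 ∧
      ∑ a ∈ s, (fst1 (b a) eps (f a) ^ 2 - 2 * snd2 (b a) (2 * eps) (f a)) = 0 := by
  obtain ⟨-, h4, h5⟩ := Ord2.prod he s f b hf
  have h6 := fst1_eq_zero h1
  have h7 := snd2_eq_zero (Dvd.dvd.mul_left h2 dd)
  rw [h6] at h4 h5
  rw [h7] at h5
  refine ⟨h4.symm, ?_⟩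
  rw [← h5]
  norm_num

/-- if the own numbers are not positive then all first order numbers vanish -/
theorem second_order_zero {ι : Type*} [DecidableEq ι] (he : 1 ≤ eps) (s : Finset ι)
    (f : ι → PowerSeries A) (b : ι → ℕ) (hf : ∀ a ∈ s, Ord2 (b a) eps (f a))
    (h1 : dd ^ (∑ a ∈ s, b a) ∣ PowerSeries.coeff eps (∏ a ∈ s, f a))
    (h2 : dd ^ (∑ a ∈ s, b a) ∣ PowerSeries.coeff (2 * eps) (∏ a ∈ s, f a))
    (hown : ∀ a ∈ s, 2 * snd2 (b a) (2 * eps) (f a) ≤ fst1 (b a) eps (f a) ^ 2) :
    ∀ a ∈ s, 2 * snd2 (b a) (2 * eps) (f a) = fst1 (b a) eps (f a) ^ 2 := by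
  obtain ⟨-, h3⟩ := second_order he s f b hf h1 h2
  have h4 : ∀ a ∈ s, 0 ≤ fst1 (b a) eps (f a) ^ 2 - 2 * snd2 (b a) (2 * eps) (f a) :=
    fun a ha => by have := hown a ha; linarith
  have h5 := (Finset.sum_eq_zero_iff_of_nonneg h4).1 h3
  intro a ha
  have := h5 a ha
  linarith

end algebra

end Pool.Agent.GaussPoset.Win
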