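import Pool.Agent.W_448co_h5.PartC

/-! Exact factorisation of the window series into the components, up to twice the distance of the
window to the first level at which components are joined. -/

namespace Pool.Agent.GaussPoset.Win

set_option linter.unusedSectionVars false

open Finset

universe u

variable {P : Type u} [Fintype P] [PartialOrder P] [DecidableEq P] {r : ℕ}

variable {i l : ℕ}

/-- an admissible configuration which is positive at a lower element is positive at all lower
elements above it -/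
theorem pos_above (H : Gr P r) {e : P → ℕ} (hA : AdmL i e) {y : P} (hy : i < lev y) :
    ∀ z, z ≤ y → 0 < e z → 0 < e y := by
  refine normb_induct (C := fun z => 0 < e z → 0 < e y) (fun h => h) ?_
  intro x z hxz hzy ih hx
  apply ih
  have h1 := lev_uc H (mem_uc.2 hxz)
  have h2 : lev y ≤ lev z := by
    rcases eq_or_lt_of_le hzy with h | h
    · rw [h]
    · exact (lev_strictAnti h).le
  exact pos_up H hA (by omega) hx hxz

/-- a configuration which excites an element with two elements above it on each of the levels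
`i+1,…,l` has energy more than `2 (l - i)` -/
theorem energy_join (H : Gr P r) {e : P → ℕ} (hA : AdmL i e) {z : P}
    (hz : l < lev z) (he : 0 < e z) (h2 : ∀ k, i < k → k ≤ l → 2 ≤ up k z) :
    2 * (l - i) + 1 ≤ ∑ x, e x := by
  classical
  set T : Finset P := insert z ((Finset.Ioc i l).biUnion
    (fun k => (lv P k).filter (fun v => z < v))) with hT
  have hzT : z ∉ (Finset.Ioc i l).biUnion (fun k => (lv P k).filter (fun v => z < v)) := by
    rw [mem_biUnion]
    rintro ⟨k, -, h⟩
    exact absurd (mem_filter.1 h).2 (lt_irrefl z)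
  have hcard : 2 * (l - i) + 1 ≤ T.card := by
    rw [hT, Finset.card_insert_of_notMem hzT, Finset.card_biUnion]
    · have h3 : ∑ _k ∈ Finset.Ioc i l, 2 ≤
          ∑ k ∈ Finset.Ioc i l, ((lv P k).filter (fun v => z < v)).card := by
        refine Finset.sum_le_sum fun k hk => ?_
        rw [Finset.mem_Ioc] at hk
        have := h2 k hk.1 hk.2
        unfold up at this
        convert this
      rw [Finset.sum_const, Nat.card_Ioc, smul_eq_mul] at h3
      omega
    · intro k _ k' _ hkk'
      rw [Function.onFun, disjoint_left]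
      intro x hx hx'
      rw [mem_filter, mem_lv] at hx hx'
      exact hkk' (hx.1.symm.trans hx'.1)
  have hpos : ∀ x ∈ T, 1 ≤ e x := by
    intro x hx
    rw [hT, mem_insert, mem_biUnion] at hx
    rcases hx with rfl | ⟨k, hk, hx⟩
    · exact he
    · rw [Finset.mem_Ioc] at hk
      rw [mem_filter, mem_lv] at hx
      exact pos_above H hA (by omega) z hx.2.le he
  calc 2 * (l - i) + 1 ≤ T.card := hcard
    _ = ∑ _x ∈ T, 1 := by simp
    _ ≤ ∑ x ∈ T, e x := Finset.sum_le_sum hpos
    _ ≤ ∑ x, e x := Finset.sum_le_sum_of_subset (subset_univ T)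

variable {ι : Type*} [DecidableEq ι] {κ : P → ι}

/-- `κ` labels the components of the levels `≤ l` (it is constant along covers there) -/
def Split (l : ℕ) (κ : P → ι) : Prop := ∀ {x y : P}, x ⋖ y → lev x ≤ l → κ x = κ y

lemma Split.le (hκ : Split l κ) {y : P} : ∀ x, x ≤ y → lev x ≤ l → κ x = κ y := by
  refine normb_induct (C := fun x => lev x ≤ l → κ x = κ y) (fun _ => rfl) ?_
  intro x z hxz _ ih hx
  have h1 : lev z < lev x := lev_strictAnti hxz.lt
  exact (hκ hxz hx).trans (ih (by omega))

open Classical in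
/-- the elements which are below the component `a` only -/
noncomputable def cext (l : ℕ) (κ : P → ι) (a : ι) : Finset P :=
  univ.filter (fun x => ∀ y, x ≤ y → lev y ≤ l → κ y = a)

lemma mem_cext {a : ι} {x : P} : x ∈ cext l κ a ↔ ∀ y, x ≤ y → lev y ≤ l → κ y = a := by
  classical
  unfold cext
  simp

lemma mem_cext_of_le (hκ : Split l κ) {x : P} (hx : lev x ≤ l) {a : ι} (ha : κ x = a) :
    x ∈ cext l κ a := by
  rw [mem_cext]
  intro y hy _
  rw [← hκ.le x hy hx, ha]

theorem part_cext (H : Gr P r) (hil : i ≤ l) (hκ : Split l κ) (a : ι) :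
    Part i (cext l κ a) where
  up := by
    intro x y hx hxy
    rw [mem_cext] at hx ⊢
    exact fun w hw hl => hx w (hxy.le.trans hw) hl
  dn := by
    intro x y hy hl hxy
    have h1 := lev_uc H (mem_uc.2 hxy)
    rw [mem_cext] at hy
    refine mem_cext_of_le hκ (by omega) ?_
    rw [hκ hxy (by omega)]
    exact hy y le_rfl (by omega)

lemma exists_top (x : P) : ∃ y, x ≤ y ∧ lev y = 0 := exists_above' (Nat.zero_le _)

theorem disj_cext {a b : ι} (hab : a ≠ b) : Disjoint (cext l κ a) (cext l κ b) := by
  rw [disjoint_left]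
  intro x hx hx'
  rw [mem_cext] at hx hx'
  obtain ⟨y, hy, hy0⟩ := exists_top x
  exact hab ((hx y hy (by omega)).symm.trans (hx' y hy (by omega)))

/-- the union of the extended components -/
noncomputable def cuni (l : ℕ) (κ : P → ι) : Finset P :=
  (univ.image κ).biUnion (cext l κ)

lemma le_mem_cuni (hκ : Split l κ) {x : P} (hx : lev x ≤ l) : x ∈ cuni l κ := by
  unfold cuni
  rw [mem_biUnion]
  exact ⟨κ x, mem_image_of_mem κ (mem_univ x), mem_cext_of_le hκ hx rfl⟩

/-- between two comparable elements there is one on each level between -/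
lemma exists_mid (H : Gr P r) {x y : P} (hxy : x ≤ y) {k : ℕ} (h1 : lev y ≤ k)
    (h2 : k ≤ lev x) : ∃ z, x ≤ z ∧ z ≤ y ∧ lev z = k := by
  have key : ∀ x, x ≤ y → k ≤ lev x → ∃ z, x ≤ z ∧ z ≤ y ∧ lev z = k := by
    refine normb_induct (C := fun x => k ≤ lev x → ∃ z, x ≤ z ∧ z ≤ y ∧ lev z = k) ?_ ?_
    · intro h
      exact ⟨y, le_rfl, le_rfl, by omega⟩
    · intro x z hxz hzy ih hx
      rcases Nat.eq_or_lt_of_le hx with h | h
      · exact ⟨x, le_rfl, hxz.le.trans hzy, h.symm⟩
      · have h3 := lev_uc H (mem_uc.2 hxz)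
        obtain ⟨w, hw1, hw2, hw3⟩ := ih (by omega)
        exact ⟨w, hxz.le.trans hw1, hw2, hw3⟩
  exact key x hxy h2

/-- an element outside the extended components has two elements above it on each level `≤ l` -/
theorem two_up (H : Gr P r) (hκ : Split l κ) {x : P} (hx : x ∉ cuni l κ) :
    l < lev x ∧ ∀ k, k ≤ l → 2 ≤ up k x := by
  classical
  have h0 : l < lev x := by
    by_contra h
    exact hx (le_mem_cuni hκ (by omega))
  refine ⟨h0, fun k hk => ?_⟩
  obtain ⟨y, hy, hy0⟩ := exists_top x
  have h1 : x ∉ cext l κ (κ y) := by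
    intro h
    apply hx
    unfold cuni
    rw [mem_biUnion]
    exact ⟨κ y, mem_image_of_mem κ (mem_univ y), h⟩
  rw [mem_cext] at h1
  push Not at h1
  obtain ⟨y', hy', hl', hne⟩ := h1
  have mk : ∀ w, x ≤ w → lev w ≤ l → ∃ v, x < v ∧ lev v = k ∧ κ v = κ w := by
    intro w hw hwl
    rcases Nat.lt_or_ge k (lev w) with h | h
    · obtain ⟨v, hv, hvk⟩ := exists_above' (x := w) (j := k) h.le
      refine ⟨v, lt_of_le_of_ne (hw.trans hv) ?_, hvk, (hκ.le w hv hwl).symm⟩
      rintro rfl
      omega
    · obtain ⟨v, hv1, hv2, hv3⟩ := exists_mid H hw h (by omega)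
      refine ⟨v, lt_of_le_of_ne hv1 ?_, hv3, hκ.le v hv2 (by omega)⟩
      rintro rfl
      omega
  obtain ⟨v, hv1, hv2, hv3⟩ := mk y hy (by omega)
  obtain ⟨v', hv1', hv2', hv3'⟩ := mk y' hy' hl'
  have hvv : v ≠ v' := by
    rintro rfl
    exact hne (hv3'.symm.trans hv3)
  unfold up
  rw [← Finset.card_pair hvv]
  apply Finset.card_le_card
  intro w hw
  rw [mem_insert, mem_singleton] at hw
  rw [mem_filter, mem_lv]
  rcases hw with rfl | rfl
  · exact ⟨hv2, hv1⟩
  · exact ⟨hv2', hv1'⟩

lemma st_cuni (hil : i ≤ l) (hκ : Split l κ) : st i (cuni l κ) = lv P i := by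
  ext v
  rw [mem_st, mem_lv]
  exact ⟨fun h => h.2, fun h => ⟨le_mem_cuni hκ (by omega), h⟩⟩

theorem ZS_cuni (H : Gr P r) (hir : i ≤ r) (hil : i ≤ l) (hκ : Split l κ) :
    ZS i (cuni l κ) = ∏ a ∈ univ.image κ, ZS i (cext l κ a) :=
  ZS_biUnion H hir _ _ (fun a _ => part_cext H hil hκ a) (fun _ _ _ _ h => disj_cext h)

/-- EXACT FACTORISATION: up to energy `2 (l - i)` the window sum of `P` is the product of the
window series of the extended components -/
theorem sum_trm_eq (H : Gr P r) (hir : i ≤ r) (hil : i ≤ l) (hκ : Split l κ) {n : ℕ}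
    (hn : n ≤ 2 * (l - i)) :
    ∑ e ∈ (univ : Finset P).piAntidiag n, trm i e =
      PowerSeries.coeff n (∏ a ∈ univ.image κ, ZS i (cext l κ a)) := by
  classical
  rw [← ZS_cuni H hir hil hκ, coeff_ZS]
  unfold ZC
  symm
  have hsub : (cuni l κ).piAntidiag n ⊆ (univ : Finset P).piAntidiag n := by
    intro e he
    have hs := spt_of_mem he
    rw [mem_piAntidiag] at he ⊢
    refine ⟨?_, fun x _ => mem_univ x⟩
    rw [← he.1]
    symm
    exact Finset.sum_subset (subset_univ _) fun x _ hx => hs x hx
  rw [← Finset.sum_subset hsub]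
  · refine Finset.sum_congr rfl fun e _ => ?_
    unfold tC trm
    rw [st_cuni hil hκ]
  · intro e he hne
    rw [mem_piAntidiag] at he hne
    have hne' : ¬ ∀ x, e x ≠ 0 → x ∈ cuni l κ := by
      intro h
      apply hne
      refine ⟨?_, h⟩
      rw [← he.1]
      refine Finset.sum_subset (subset_univ _) fun x _ hx => ?_
      by_contra h0
      exact hx (h x h0)
    push Not at hne'
    obtain ⟨z, hz0, hz⟩ := hne'
    obtain ⟨hzl, h2⟩ := two_up H hκ hz
    unfold trm
    split_ifs with hd
    · unfold cw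
      rw [if_neg, zero_mul]
      rintro ⟨hA, -⟩
      have := energy_join H hA hzl (by omega) (fun k _ hk => h2 k hk)
      have h3 : ∑ x, e x = n := he.1
      omega
    · rfl

/-- the sites are distributed over the extended components -/
theorem sum_card_st (hil : i ≤ l) (hκ : Split l κ) :
    ∑ a ∈ univ.image κ, (st i (cext l κ a)).card = (lv P i).card := by
  rw [← st_cuni hil hκ]
  unfold cuni st
  rw [Finset.filter_biUnion, Finset.card_biUnion]
  intro a _ b _ hab
  exact disjoint_of_subset_left (filter_subset _ _)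
    (disjoint_of_subset_right (filter_subset _ _) (disj_cext hab))

/-- the total is clean -/
theorem dvd_prod (H : Gr P r) (hir : i ≤ r) (hil : i ≤ l) (hκ : Split l κ) {n : ℕ}
    (hn : n ≤ 2 * (l - i)) :
    dd ^ (∑ a ∈ univ.image κ, (st i (cext l κ a)).card) ∣
      PowerSeries.coeff n (∏ a ∈ univ.image κ, ZS i (cext l κ a)) := by
  rw [sum_card_st hil hκ, ← sum_trm_eq H hir hil hκ hn]
  exact dvd_sum_trm H hir n

end Pool.Agent.GaussPoset.Win
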