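import Pool.Agent.W_448co_h5.Second

/-! The first difference lemma: at energy `≤ k - i` the level `k` is seen by the window `i` only
through the elements whose cone (above level `i`) is a chain. -/

namespace Pool.Agent.GaussPoset.Win

set_option linter.unusedSectionVars false

open Finset

universe u

variable {P : Type u} [Fintype P] [PartialOrder P] [DecidableEq P] {r : ℕ}

variable {i k : ℕ} {C : Finset P}

open Classical in
/-- the lower elements above `z` (`z` included) -/
noncomputable def cone (i : ℕ) (z : P) : Finset P := univ.filter (fun y => z ≤ y ∧ i < lev y)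

/-- label one on the cone of `z` -/
noncomputable def cind (i : ℕ) (z : P) : P → ℕ := fun y => if y ∈ cone i z then 1 else 0

open Classical in
/-- number of elements of level `m` in the cone of `z` (`z` included) -/
noncomputable def cat (m : ℕ) (z : P) : ℕ := ((lv P m).filter (fun y => z ≤ y)).card

lemma mem_cone {z y : P} : y ∈ cone i z ↔ z ≤ y ∧ i < lev y := by
  classical
  unfold cone
  simp

lemma cind_of_mem {z y : P} (h : y ∈ cone i z) : cind i z y = 1 := if_pos h

lemma cind_of_not_mem {z y : P} (h : y ∉ cone i z) : cind i z y = 0 := if_neg h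

lemma cind_le_one (z y : P) : cind i z y ≤ 1 := by
  unfold cind
  split_ifs <;> omega

lemma cind_pos {z y : P} (h : 0 < cind i z y) : y ∈ cone i z := by
  by_contra h'
  rw [cind_of_not_mem h'] at h
  omega

lemma sum_cind (z : P) : ∑ y, cind i z y = (cone i z).card := by
  unfold cind
  rw [Finset.sum_ite_mem, Finset.univ_inter, Finset.sum_const, smul_eq_mul, mul_one]

/-- every level between meets the cone -/
lemma card_cone_ge {z : P} : lev z - i ≤ (cone i z).card := by
  classical
  have h : ((cone i z).image lev) ⊇ Finset.Ioc i (lev z) := by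
    intro m hm
    rw [Finset.mem_Ioc] at hm
    obtain ⟨y, hy, hym⟩ := exists_above' (x := z) (j := m) hm.2
    rw [mem_image]
    exact ⟨y, mem_cone.2 ⟨hy, by omega⟩, hym⟩
  calc lev z - i = (Finset.Ioc i (lev z)).card := by rw [Nat.card_Ioc]
    _ ≤ ((cone i z).image lev).card := Finset.card_le_card h
    _ ≤ (cone i z).card := Finset.card_image_le

/-- an admissible configuration dominates the cone of every excited lower element -/
theorem cind_le (H : Gr P r) {e : P → ℕ} (hA : AdmL i e) {z : P} (he : 0 < e z) (y : P) :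
    cind i z y ≤ e y := by
  by_cases hy : y ∈ cone i z
  · rw [cind_of_mem hy]
    rw [mem_cone] at hy
    exact pos_above H hA hy.2 z hy.1 he
  · rw [cind_of_not_mem hy]
    exact Nat.zero_le _

theorem card_cone_le (H : Gr P r) {e : P → ℕ} (hA : AdmL i e) {z : P} (he : 0 < e z) :
    (cone i z).card ≤ ∑ y, e y := by
  rw [← sum_cind]
  exact Finset.sum_le_sum fun y _ => cind_le H hA he y

/-- a configuration of energy at most `k - i` which excites level `k` or a deeper level is the
indicator of the cone of an element of level `k` -/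
theorem eq_ind (H : Gr P r) {e : P → ℕ} (hA : AdmL i e) {z : P} (he : 0 < e z)
    (hik : i < k) (hz : k ≤ lev z) (hn : ∑ y, e y ≤ k - i) :
    lev z = k ∧ (cone i z).card = k - i ∧ ∑ y, e y = k - i ∧ e = cind i z := by
  have h1 := card_cone_ge (i := i) (z := z)
  have h2 := card_cone_le H hA he
  refine ⟨by omega, by omega, by omega, ?_⟩
  have h3 : ∑ y, e y = ∑ y, cind i z y := by
    rw [sum_cind]
    omega
  funext y
  have h4 := (Finset.sum_eq_sum_iff_of_le (s := univ) (f := cind i z) (g := e)
    (fun y _ => cind_le H hA he y)).1 h3.symm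
  exact (h4 y (mem_univ y)).symm

section val

variable {z : P}

lemma not_FD_ind (hy : P) (h : i < lev hy) : ¬ FD (cind i z) hy := by
  rintro ⟨y', hy', hlt⟩
  have h1 : y' ∈ cone i z := cind_pos (by omega)
  have h2 : hy ∈ cone i z := by
    rw [mem_cone] at h1 ⊢
    exact ⟨h1.1.trans hy'.le, h⟩
  rw [cind_of_mem h2] at hlt
  have := cind_le_one (i := i) z y'
  omega

lemma not_FU_ind (u : P) (h : lev u ≤ i) : ¬ FU (cind i z) u := by
  rintro ⟨y, hy, hlt⟩
  have h1 : y ∈ cone i z := cind_pos (by omega)
  rw [mem_cone] at h1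
  have h2 : lev y < lev u := lev_strictAnti hy.lt
  omega

open Classical in
lemma AU_ind : AU i (cind i z) = ∅ := by
  ext v
  rw [NormD_mem_AU]
  constructor
  · rintro ⟨h1, h2⟩
    exact absurd h2 (not_FU_ind v h1.le)
  · intro h
    exact absurd h (Finset.notMem_empty v)

open Classical in
lemma AL_ind (H : Gr P r) (hz : i < lev z) :
    AL i (cind i z) = (lv P i).filter (fun v => z < v) := by
  ext v
  rw [NormD_mem_AL, mem_filter, mem_lv]
  constructor
  · rintro ⟨h1, y', hy', hlt⟩
    have h2 : y' ∈ cone i z := cind_pos (by omega)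
    rw [mem_cone] at h2
    exact ⟨h1, lt_of_le_of_lt h2.1 hy'.lt⟩
  · rintro ⟨h1, h2⟩
    refine ⟨h1, ?_⟩
    obtain ⟨w, hw1, hw2, hw3⟩ := exists_mid H h2.le (k := i + 1) (by omega) (by omega)
    have h3 : w ⋖ v := by
      rw [H.covBy_iff]
      refine ⟨lt_of_le_of_ne hw2 ?_, by omega⟩
      rintro rfl
      omega
    refine ⟨w, h3, ?_⟩
    have h4 : v ∉ cone i z := by
      rw [mem_cone]
      omega
    have h5 : w ∈ cone i z := mem_cone.2 ⟨hw1, by omega⟩
    rw [cind_of_mem h5, cind_of_not_mem h4]
    omega

lemma card_AL_ind (H : Gr P r) (hz : i < lev z) : (AL i (cind i z)).card = up i z := by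
  classical
  rw [AL_ind H hz]
  unfold up
  congr

lemma pL_ind (H : Gr P r) : pL i (cind i z) = cat (i + 1) z := by
  classical
  unfold pL cat
  congr 1
  ext y
  simp only [mem_filter, mem_univ, true_and, mem_lv]
  constructor
  · rintro ⟨h1, h2, h3⟩
    have h4 : y ∈ cone i z := by
      by_contra h
      obtain ⟨t, ht⟩ := uc_nonempty H (x := y) (by omega)
      exact h3 ⟨t, mem_uc.1 ht, by rw [cind_of_not_mem h]; exact Nat.zero_le _⟩
    refine ⟨?_, (mem_cone.1 h4).1⟩
    by_contra h5
    obtain ⟨t, ht⟩ := uc_nonempty H (x := y) (by omega)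
    have h6 := lev_uc H ht
    have h7 : t ∈ cone i z := by
      rw [mem_cone] at h4 ⊢
      exact ⟨h4.1.trans (mem_uc.1 ht).le, by omega⟩
    exact h3 ⟨t, mem_uc.1 ht, by rw [cind_of_mem h7]; exact cind_le_one z y⟩
  · rintro ⟨h1, h2⟩
    have h4 : y ∈ cone i z := mem_cone.2 ⟨h2, by omega⟩
    refine ⟨by omega, not_FD_ind y (by omega), ?_⟩
    rintro ⟨t, ht, hle⟩
    have h5 := lev_uc H (mem_uc.2 ht)
    have h6 : t ∉ cone i z := by
      rw [mem_cone]
      omega
    rw [cind_of_mem h4, cind_of_not_mem h6] at hle
    omega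

lemma cw_ind (H : Gr P r) (hir : i ≤ r) :
    cw i (cind i z) = dd ^ cat (i + 1) z := by
  classical
  have h3 : AdmL i (cind i z) := fun y hy h => not_FD_ind y hy h.1
  have h4 : AdmU i (cind i z) := fun y hy h => not_FU_ind y hy.le h.1
  have h5 : aL i (cind i z) = 0 := by
    unfold aL
    rw [Finset.card_eq_zero, Finset.filter_eq_empty_iff]
    rintro y - ⟨h, h'⟩
    exact not_FD_ind y h h'
  have h6 : aU i (cind i z) = 0 := by
    unfold aU
    rw [Finset.card_eq_zero, Finset.filter_eq_empty_iff]
    rintro y - ⟨h, h'⟩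
    exact not_FU_ind y h.le h'
  have h8 : pU i (cind i z) = 0 := by
    unfold pU
    rw [Finset.card_eq_zero, Finset.filter_eq_empty_iff]
    rintro y - ⟨h, _, h'⟩
    apply h'
    obtain ⟨t, ht⟩ := dc_nonempty H (x := y) (by omega)
    have h9 : y ∉ cone i z := by
      rw [mem_cone]
      omega
    exact ⟨t, mem_dc.1 ht, by rw [cind_of_not_mem h9]; exact Nat.zero_le _⟩
  unfold cw
  rw [if_pos ⟨h3, h4⟩, h5, h6, pL_ind H, h8]
  simp

/-- the term of the indicator of a cone -/
theorem tC_ind (H : Gr P r) (hir : i ≤ r) (C : Finset P) (hz : i < lev z) :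
    tC i C (cind i z) = xx ^ up i z * dd ^ (cat (i + 1) z + ((st i C).card - up i z)) := by
  classical
  unfold tC
  rw [AU_ind, if_pos (disjoint_empty_right _), cw_ind H hir, card_AL_ind H hz,
    Finset.card_empty, Nat.sub_zero, pow_add]
  ring

end val

open Classical in
/-- the elements of level `k` of the part whose cone is a chain -/
noncomputable def slim (i k : ℕ) (C : Finset P) : Finset P :=
  C.filter (fun z => lev z = k ∧ (cone i z).card = k - i)

lemma mem_slim {z : P} : z ∈ slim i k C ↔ z ∈ C ∧ lev z = k ∧ (cone i z).card = k - i := by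
  classical
  unfold slim
  rw [mem_filter]

/-- the part above level `k` -/
noncomputable def cut (k : ℕ) (C : Finset P) : Finset P := C.filter (fun z => lev z < k)

lemma mem_cut {z : P} : z ∈ cut k C ↔ z ∈ C ∧ lev z < k := by
  unfold cut
  rw [mem_filter]

lemma part_cut (H : Gr P r) (hC : Part i C) (hik : i < k) : Part i (cut k C) where
  up := by
    intro x y hx hxy
    have h1 := lev_uc H (mem_uc.2 hxy)
    rw [mem_cut] at hx ⊢
    exact ⟨hC.up hx.1 hxy, by omega⟩
  dn := by
    intro x y hy hl hxy
    have h1 := lev_uc H (mem_uc.2 hxy)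
    rw [mem_cut] at hy ⊢
    exact ⟨hC.dn hy.1 hl hxy, by omega⟩

lemma st_cut (hik : i < k) : st i (cut k C) = st i C := by
  ext v
  rw [mem_st, mem_st, mem_cut]
  constructor
  · exact fun h => ⟨h.1.1, h.2⟩
  · exact fun h => ⟨⟨h.1, by omega⟩, h.2⟩

lemma cind_inj {z z' : P} (h1 : lev z = lev z') (hi : i < lev z) (h : cind i z = cind i z') :
    z = z' := by
  have h2 : z ∈ cone i z := mem_cone.2 ⟨le_rfl, hi⟩
  have h3 : cind i z' z = 1 := by rw [← h, cind_of_mem h2]
  have h4 : z ∈ cone i z' := cind_pos (by omega)
  rw [mem_cone] at h4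
  rcases eq_or_lt_of_le h4.1 with h5 | h5
  · exact h5.symm
  · have := lev_strictAnti h5
    omega

lemma cone_sub (hC : Part i C) {z : P} (hz : z ∈ C) : cone i z ⊆ C := by
  intro y hy
  rw [mem_cone] at hy
  have key : ∀ x, x ≤ y → x ∈ C → y ∈ C := by
    refine normb_induct (C := fun x => x ∈ C → y ∈ C) (fun h => h) ?_
    intro x w hxw _ ih hx
    exact ih (hC.up hx hxw)
  exact key z hy.1 hz

/-- FIRST DIFFERENCE LEMMA -/
theorem ZC_first (H : Gr P r) (hir : i ≤ r) (hC : Part i C) (hik : i < k) {n : ℕ}
    (hn : n ≤ k - i) :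
    ZC i C n = ZC i (cut k C) n + if n = k - i then
      ∑ z ∈ slim i k C, xx ^ up i z * dd ^ (1 + ((st i C).card - up i z)) else 0 := by
  classical
  have hsub : (cut k C).piAntidiag n ⊆ C.piAntidiag n := by
    intro e he
    have hs := spt_of_mem he
    rw [mem_piAntidiag] at he ⊢
    have hsubC : cut k C ⊆ C := filter_subset _ _
    refine ⟨?_, fun x hx => hsubC (he.2 x hx)⟩
    rw [← he.1]
    symm
    exact Finset.sum_subset hsubC fun x _ hx => hs x hx
  have h1 : ZC i C n = ∑ e ∈ (cut k C).piAntidiag n, tC i C e +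
      ∑ e ∈ C.piAntidiag n \ (cut k C).piAntidiag n, tC i C e := by
    unfold ZC
    rw [add_comm, Finset.sum_sdiff hsub]
  have h2 : ∑ e ∈ (cut k C).piAntidiag n, tC i C e = ZC i (cut k C) n := by
    unfold ZC
    refine Finset.sum_congr rfl fun e _ => ?_
    unfold tC
    rw [st_cut hik]
  rw [h1, h2]
  congr 1
  -- the configurations which excite level `k`
  have h3 : ∀ e ∈ C.piAntidiag n \ (cut k C).piAntidiag n, tC i C e ≠ 0 →
      n = k - i ∧ ∃ z ∈ slim i k C, e = cind i z := by
    intro e he hne
    rw [mem_sdiff] at he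
    obtain ⟨heC, heN⟩ := he
    have hs := spt_of_mem heC
    rw [mem_piAntidiag] at heC heN
    have hsum : ∑ x, e x = n := by
      rw [← heC.1]
      symm
      exact Finset.sum_subset (subset_univ C) fun x _ hx => hs x hx
    have hex : ∃ z, e z ≠ 0 ∧ z ∉ cut k C := by
      by_contra hcon
      push Not at hcon
      apply heN
      refine ⟨?_, hcon⟩
      rw [← heC.1]
      refine Finset.sum_subset (filter_subset _ _) fun x _ hx => ?_
      by_contra h0
      exact hx (hcon x h0)
    obtain ⟨z, hz0, hz⟩ := hex
    have hzC : z ∈ C := heC.2 z hz0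
    have hzk : k ≤ lev z := by
      by_contra h
      exact hz (mem_cut.2 ⟨hzC, by omega⟩)
    have hA : AdmL i e := by
      by_contra h
      apply hne
      unfold tC
      split_ifs with hd
      · unfold cw
        rw [if_neg (fun h' => h h'.1), zero_mul]
      · rfl
    obtain ⟨g1, g2, g3, g4⟩ := eq_ind H hA (z := z) (by omega) hik hzk (by omega)
    exact ⟨by omega, z, mem_slim.2 ⟨hzC, g1, g2⟩, g4⟩
  split_ifs with hnk
  · have h4 : (slim i k C).image (cind i) ⊆ C.piAntidiag n \ (cut k C).piAntidiag n := by
      intro e he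
      rw [mem_image] at he
      obtain ⟨z, hz, rfl⟩ := he
      rw [mem_slim] at hz
      have hsupp : ∀ x, cind i z x ≠ 0 → x ∈ C := by
        intro x hx
        exact cone_sub hC hz.1 (cind_pos (Nat.pos_of_ne_zero hx))
      rw [mem_sdiff, mem_piAntidiag, mem_piAntidiag]
      refine ⟨⟨?_, hsupp⟩, ?_⟩
      · have : C.sum (cind i z) = ∑ x, cind i z x := by
          refine Finset.sum_subset (subset_univ C) fun x _ hx => ?_
          by_contra h0
          exact hx (hsupp x h0)
        rw [this, sum_cind, hz.2.2, hnk]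
      · rintro ⟨-, h⟩
        have h5 : z ∈ cone i z := mem_cone.2 ⟨le_rfl, by omega⟩
        have h6 := h z (by rw [cind_of_mem h5]; exact one_ne_zero)
        rw [mem_cut] at h6
        omega
    rw [← Finset.sum_subset h4]
    · rw [Finset.sum_image]
      · refine Finset.sum_congr rfl fun z hz => ?_
        rw [mem_slim] at hz
        rw [tC_ind H hir C (by omega)]
        congr 2
        -- exactly one element of the cone on level `i + 1`
        have h7 : cat (i + 1) z = 1 := by
          have himg : ((cone i z).image lev) = Finset.Ioc i k := by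
            ext m
            rw [mem_image, Finset.mem_Ioc]
            constructor
            · rintro ⟨y, hy, rfl⟩
              rw [mem_cone] at hy
              refine ⟨hy.2, ?_⟩
              rcases eq_or_lt_of_le hy.1 with h8 | h8
              · rw [← h8, hz.2.1]
              · have := lev_strictAnti h8
                omega
            · rintro ⟨h8, h9⟩
              obtain ⟨y, hy, hym⟩ := exists_above' (x := z) (j := m) (by omega)
              exact ⟨y, mem_cone.2 ⟨hy, by omega⟩, hym⟩
          have hinj : Set.InjOn lev (cone i z : Set P) := by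
            rw [← Finset.card_image_iff, himg, Nat.card_Ioc, hz.2.2]
          unfold cat
          rw [Finset.card_eq_one]
          obtain ⟨y, hy, hym⟩ := exists_above' (x := z) (j := i + 1) (by omega)
          refine ⟨y, ?_⟩
          ext w
          rw [mem_filter, mem_lv, mem_singleton]
          constructor
          · rintro ⟨h8, h9⟩
            exact hinj (mem_coe.2 (mem_cone.2 ⟨h9, by omega⟩))
              (mem_coe.2 (mem_cone.2 ⟨hy, by omega⟩)) (h8.trans hym.symm)
          · rintro rfl
            exact ⟨hym, hy⟩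
        rw [h7]
      · intro z hz z' hz' h
        rw [mem_coe, mem_slim] at hz hz'
        exact cind_inj (by omega) (by omega) h
    · intro e he hne
      by_contra h0
      obtain ⟨-, z, hz, rfl⟩ := h3 e he h0
      exact hne (mem_image_of_mem _ hz)
  · refine Finset.sum_eq_zero fun e he => ?_
    by_contra h0
    exact hnk (h3 e he h0).1

end Pool.Agent.GaussPoset.Win
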