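import Pool.Agent.W_448co_h5.FirstDiff

/-! The first order number of a part: the pure pendants of level `k` enter with coefficient one. -/

namespace Pool.Agent.GaussPoset.Win

set_option linter.unusedSectionVars false

open Finset

universe u

variable {P : Type u} [Fintype P] [PartialOrder P] [DecidableEq P] {r : ℕ}

variable {i k : ℕ} {C : Finset P}

/-- the cone of a slim element has exactly one element on each level between -/
lemma slim_unique {z : P} (hz : z ∈ slim i k C) {y y' : P} (h1 : y ∈ cone i z)
    (h2 : y' ∈ cone i z) (h : lev y = lev y') : y = y' := by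
  classical
  rw [mem_slim] at hz
  have himg : ((cone i z).image lev) = Finset.Ioc i k := by
    ext m
    rw [mem_image, Finset.mem_Ioc]
    constructor
    · rintro ⟨y, hy, rfl⟩
      rw [mem_cone] at hy
      refine ⟨hy.2, ?_⟩
      rcases eq_or_lt_of_le hy.1 with h8 | h8
      · rw [← h8, hz.2.1]
      · have := lev_strictAnti h8
        omega
    · rintro ⟨h8, h9⟩
      obtain ⟨y, hy, hym⟩ := exists_above' (x := z) (j := m) (by omega)
      exact ⟨y, mem_cone.2 ⟨hy, by omega⟩, hym⟩
  have hinj : Set.InjOn lev (cone i z : Set P) := by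
    rw [← Finset.card_image_iff, himg, Nat.card_Ioc, hz.2.2]
  exact hinj (mem_coe.2 h1) (mem_coe.2 h2) h

/-- the sites above a slim element are the upper covers of one near element -/
lemma slim_sites (H : Gr P r) (hik : i < k) {z : P} (hz : z ∈ slim i k C) :
    ∃ y, z ≤ y ∧ lev y = i + 1 ∧ up i z = (uc y).card := by
  classical
  have hz' := mem_slim.1 hz
  obtain ⟨y, hy, hym⟩ := exists_above' (x := z) (j := i + 1) (by omega)
  refine ⟨y, hy, hym, ?_⟩
  unfold up
  congr 1
  ext v
  rw [mem_filter, mem_lv, mem_uc]
  constructor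
  · rintro ⟨h1, h2⟩
    obtain ⟨w, hw1, hw2, hw3⟩ := exists_mid H h2.le (k := i + 1) (by omega) (by omega)
    have h3 : w = y := slim_unique hz (mem_cone.2 ⟨hw1, by omega⟩) (mem_cone.2 ⟨hy, by omega⟩)
      (hw3.trans hym.symm)
    rw [← h3, H.covBy_iff]
    refine ⟨lt_of_le_of_ne hw2 ?_, by omega⟩
    rintro rfl
    omega
  · intro h
    have := lev_uc H (mem_uc.2 h)
    exact ⟨by omega, lt_of_le_of_lt hy h.lt⟩

lemma slim_up (H : Gr P r) (hik : i < k) {z : P} (hz : z ∈ slim i k C) :
    up i z = 1 ∨ up i z = 2 := by
  obtain ⟨y, -, hy, h⟩ := slim_sites H hik hz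
  have h1 := uc_card_le H y
  have h2 := (uc_nonempty H (x := y) (by omega)).card_pos
  omega

lemma up_le_st (hC : Part i C) {z : P} (hz : z ∈ C) : up i z ≤ (st i C).card := by
  classical
  unfold up
  apply Finset.card_le_card
  intro v hv
  rw [mem_filter, mem_lv] at hv
  refine mem_st.2 ⟨?_, hv.1⟩
  have key : ∀ x, x ≤ v → x ∈ C → v ∈ C := by
    refine normb_induct (C := fun x => x ∈ C → v ∈ C) (fun h => h) ?_
    intro x w hxw _ ih hx
    exact ih (hC.up hx hxw)
  exact key z hv.2.le hz

open Classical in
/-- the pure pendants: slim elements with two sites -/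
noncomputable def pend (i k : ℕ) (C : Finset P) : Finset P :=
  (slim i k C).filter (fun z => up i z = 2)

lemma cc_xx_pow_two : PowerSeries.coeff 0 (xx ^ 2) = (1 : ℤ) := by
  have h : PowerSeries.constantCoeff (xx ^ 2) = (1 : ℤ) := by
    rw [map_pow, cc_xx]
    norm_num
  rw [← h, PowerSeries.coeff_zero_eq_constantCoeff]

/-- FIRST ORDER NUMBER: the level `k` enters the coefficient of `q ^ (k-i) / d` of the window `i`
through the number of its pure pendants -/
theorem fst1_first (H : Gr P r) (hir : i ≤ r) (hC : Part i C) (hik : i < k) :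
    fst1 (st i C).card (k - i) (ZS i C) =
      fst1 (st i C).card (k - i) (ZS i (cut k C)) + (pend i k C).card := by
  classical
  unfold fst1
  rw [coeff_ZS, coeff_ZS, ZC_first H hir hC hik le_rfl, if_pos rfl, mul_add, map_add]
  congr 1
  rw [Finset.mul_sum, map_sum]
  have h1 : ∀ z ∈ slim i k C, PowerSeries.coeff (st i C).card
      (dd * (xx ^ up i z * dd ^ (1 + ((st i C).card - up i z)))) =
        if up i z = 2 then (1 : ℤ) else 0 := by
    intro z hz
    have hb := up_le_st hC (mem_slim.1 hz).1
    rcases slim_up H hik hz with h | h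
    · rw [h, if_neg (by omega)]
      rw [h] at hb
      apply coeff_lead_zero
      have : dd * (xx ^ 1 * dd ^ (1 + ((st i C).card - 1))) =
          dd ^ ((st i C).card + 1) * xx := by
        rw [show 1 + ((st i C).card - 1) = (st i C).card by omega, pow_succ dd (st i C).card]
        ring
      rw [this]
      exact dvd_mul_right _ _
    · rw [h, if_pos rfl]
      rw [h] at hb
      have : dd * (xx ^ 2 * dd ^ (1 + ((st i C).card - 2))) =
          dd ^ (st i C).card * xx ^ 2 := by
        have h2 : (st i C).card = 1 + ((st i C).card - 2) + 1 := by omega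
        calc dd * (xx ^ 2 * dd ^ (1 + ((st i C).card - 2)))
            = dd ^ (1 + ((st i C).card - 2) + 1) * xx ^ 2 := by
              rw [pow_succ dd (1 + ((st i C).card - 2))]
              ring
          _ = dd ^ (st i C).card * xx ^ 2 := by rw [← h2]
      rw [this]
      unfold dd
      have h3 := PowerSeries.coeff_X_pow_mul (xx ^ 2) (st i C).card 0
      rw [zero_add] at h3
      rw [h3, cc_xx_pow_two]
  rw [Finset.sum_congr rfl h1, ← Finset.sum_filter]
  simp [pend]

/-- below the energy `k - i` the level `k` is not seen at all -/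
theorem ZC_cut (H : Gr P r) (hir : i ≤ r) (hC : Part i C) (hik : i < k) {n : ℕ}
    (hn : n < k - i) : ZC i C n = ZC i (cut k C) n := by
  rw [ZC_first H hir hC hik hn.le, if_neg (by omega), add_zero]

/-- a clean part: the number of pure pendants of level `k` is determined by the levels `< k` -/
theorem pend_eq (H : Gr P r) (hir : i ≤ r) (hC : Part i C) (hik : i < k)
    (h : fst1 (st i C).card (k - i) (ZS i C) = 0) :
    ((pend i k C).card : ℤ) = - fst1 (st i (cut k C)).card (k - i) (ZS i (cut k C)) := by
  have h1 := fst1_first H hir hC hik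
  rw [h] at h1
  rw [st_cut hik]
  linarith

end Pool.Agent.GaussPoset.Win
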