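import Pool.Agent.W_448win_h16.NormE
import Pool.Agent.W_448win_h16.LowB

/-! Parts of a graded poset: additivity of the data of a configuration. Nothing is assumed about
the number of maximal elements. -/

namespace Pool.Agent.GaussPoset.Win

set_option linter.unusedSectionVars false

open Finset

universe u

variable {P : Type u} [Fintype P] [PartialOrder P] [DecidableEq P] {r : ℕ}

/-- closed upwards, and closed downwards at the levels smaller than `i` -/
structure Part (i : ℕ) (C : Finset P) : Prop where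
  up : ∀ {x y : P}, x ∈ C → x ⋖ y → y ∈ C
  dn : ∀ {x y : P}, y ∈ C → lev y < i → x ⋖ y → x ∈ C

/-- the configuration `e` is supported on `C` -/
def Spt (C : Finset P) (e : P → ℕ) : Prop := ∀ x, x ∉ C → e x = 0

/-- the sites of the part `C` -/
noncomputable def st (i : ℕ) (C : Finset P) : Finset P := C.filter (fun v => lev v = i)

/-- the term of a configuration supported on `C` -/
noncomputable def tC (i : ℕ) (C : Finset P) (e : P → ℕ) : A :=
  if Disjoint (AL i e) (AU i e) then
    cw i e * (xx ^ (AL i e).card * dd ^ ((st i C).card - (AL i e).card - (AU i e).card))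
  else 0

/-- the window sum of the part `C` -/
noncomputable def ZC (i : ℕ) (C : Finset P) (n : ℕ) : A :=
  ∑ e ∈ C.piAntidiag n, tC i C e

lemma mem_st {i : ℕ} {C : Finset P} {v : P} : v ∈ st i C ↔ v ∈ C ∧ lev v = i := by
  unfold st; rw [mem_filter]

lemma Part.union {i : ℕ} {C D : Finset P} (hC : Part i C) (hD : Part i D) : Part i (C ∪ D) where
  up := by
    intro x y hx hxy
    rcases mem_union.1 hx with h | h
    · exact mem_union_left _ (hC.up h hxy)
    · exact mem_union_right _ (hD.up h hxy)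
  dn := by
    intro x y hy hl hxy
    rcases mem_union.1 hy with h | h
    · exact mem_union_left _ (hC.dn h hl hxy)
    · exact mem_union_right _ (hD.dn h hl hxy)

section one

variable {i : ℕ} {C : Finset P} {e : P → ℕ}

lemma FD_mem (hC : Part i C) (he : Spt C e) {z : P} (h : FD e z) : z ∈ C := by
  obtain ⟨z', hz', hlt⟩ := h
  by_contra hz
  have : z' ∈ C := by
    by_contra h'
    rw [he z' h'] at hlt
    omega
  exact hz (hC.up this hz')

lemma FU_mem (H : Gr P r) (hC : Part i C) (he : Spt C e) {u : P} (hu : lev u ≤ i)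
    (h : FU e u) : u ∈ C := by
  obtain ⟨y, hy, hlt⟩ := h
  have hyC : y ∈ C := by
    by_contra h'
    rw [he y h'] at hlt
    omega
  have := lev_uc H (mem_uc.2 hy)
  exact hC.dn hyC (by omega) hy

lemma GU_out (H : Gr P r) (he : Spt C e) {z : P} (hz : z ∉ C) (h1 : 1 ≤ lev z) : GU e z := by
  obtain ⟨y, hy⟩ := uc_nonempty H h1
  exact ⟨y, mem_uc.1 hy, by rw [he z hz]; exact Nat.zero_le _⟩

lemma GD_out (H : Gr P r) (he : Spt C e) {u : P} (hu : u ∉ C) (h1 : lev u < r) : GD e u := by
  obtain ⟨z, hz⟩ := dc_nonempty H h1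
  exact ⟨z, mem_dc.1 hz, by rw [he u hu]; exact Nat.zero_le _⟩

lemma AL_sub (hC : Part i C) (he : Spt C e) : AL i e ⊆ st i C := by
  classical
  intro v hv
  rw [NormD_mem_AL] at hv
  exact mem_st.2 ⟨FD_mem hC he hv.2, hv.1⟩

lemma AU_sub (H : Gr P r) (hC : Part i C) (he : Spt C e) : AU i e ⊆ st i C := by
  classical
  intro v hv
  rw [NormD_mem_AU] at hv
  exact mem_st.2 ⟨FU_mem H hC he hv.1.le hv.2, hv.1⟩

end one

section two

variable {i : ℕ} {C D : Finset P} {e f : P → ℕ}

lemma Spt.add (he : Spt C e) (hf : Spt D f) : Spt (C ∪ D) (e + f) := by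
  intro x hx
  rw [mem_union, not_or] at hx
  rw [Pi.add_apply, he x hx.1, hf x hx.2]

lemma zero_right (hCD : Disjoint C D) (hf : Spt D f) {x : P} (hx : x ∈ C) : f x = 0 :=
  hf x (disjoint_left.1 hCD hx)

lemma FD_add_left (hD : Part i D) (hCD : Disjoint C D) (hf : Spt D f)
    {z : P} (hz : z ∈ C) : FD (e + f) z ↔ FD e z := by
  have h0 := zero_right hCD hf hz
  have h1 : ∀ z', z' ⋖ z → f z' = 0 := by
    intro z' hz'
    by_contra h
    have : z' ∈ D := by
      by_contra h'
      exact h (hf z' h')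
    exact disjoint_left.1 hCD hz (hD.up this hz')
  unfold FD
  constructor
  · rintro ⟨z', hz', hlt⟩
    refine ⟨z', hz', ?_⟩
    simpa [h0, h1 z' hz'] using hlt
  · rintro ⟨z', hz', hlt⟩
    refine ⟨z', hz', ?_⟩
    simpa [h0, h1 z' hz'] using hlt

lemma FD_add (hC : Part i C) (hD : Part i D) (hCD : Disjoint C D) (he : Spt C e) (hf : Spt D f)
    (z : P) : FD (e + f) z ↔ FD e z ∨ FD f z := by
  by_cases hz : z ∈ C
  · rw [FD_add_left hD hCD hf hz]
    refine ⟨Or.inl, fun h => h.elim id fun h => ?_⟩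
    exact absurd (FD_mem hD hf h) (disjoint_left.1 hCD hz)
  · by_cases hz2 : z ∈ D
    · rw [add_comm e f, FD_add_left hC hCD.symm he hz2]
      refine ⟨Or.inr, fun h => h.elim (fun h => ?_) id⟩
      exact absurd (FD_mem hC he h) hz
    · constructor
      · intro h
        have := FD_mem (hC.union hD) (he.add hf) h
        rw [mem_union] at this
        exact absurd this (not_or.2 ⟨hz, hz2⟩)
      · rintro (h | h)
        · exact absurd (FD_mem hC he h) hz
        · exact absurd (FD_mem hD hf h) hz2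

lemma GU_add_left (hC : Part i C) (hCD : Disjoint C D) (hf : Spt D f)
    {z : P} (hz : z ∈ C) : GU (e + f) z ↔ GU e z := by
  have h0 := zero_right hCD hf hz
  have h1 : ∀ y, z ⋖ y → f y = 0 := fun y hy => zero_right hCD hf (hC.up hz hy)
  unfold GU
  constructor
  · rintro ⟨y, hy, hlt⟩
    refine ⟨y, hy, ?_⟩
    simpa [h0, h1 y hy] using hlt
  · rintro ⟨y, hy, hlt⟩
    refine ⟨y, hy, ?_⟩
    simpa [h0, h1 y hy] using hlt

lemma FU_add_left (hC : Part i C) (hCD : Disjoint C D) (hf : Spt D f)
    {z : P} (hz : z ∈ C) : FU (e + f) z ↔ FU e z := by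
  have h0 := zero_right hCD hf hz
  have h1 : ∀ y, z ⋖ y → f y = 0 := fun y hy => zero_right hCD hf (hC.up hz hy)
  unfold FU
  constructor
  · rintro ⟨y, hy, hlt⟩
    refine ⟨y, hy, ?_⟩
    simpa [h0, h1 y hy] using hlt
  · rintro ⟨y, hy, hlt⟩
    refine ⟨y, hy, ?_⟩
    simpa [h0, h1 y hy] using hlt

lemma FU_add (H : Gr P r) (hC : Part i C) (hD : Part i D) (hCD : Disjoint C D) (he : Spt C e)
    (hf : Spt D f) {u : P} (hu : lev u ≤ i) : FU (e + f) u ↔ FU e u ∨ FU f u := by
  by_cases hz : u ∈ C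
  · rw [FU_add_left hC hCD hf hz]
    refine ⟨Or.inl, fun h => h.elim id fun h => ?_⟩
    exact absurd (FU_mem H hD hf hu h) (disjoint_left.1 hCD hz)
  · by_cases hz2 : u ∈ D
    · rw [add_comm e f, FU_add_left hD hCD.symm he hz2]
      refine ⟨Or.inr, fun h => h.elim (fun h => ?_) id⟩
      exact absurd (FU_mem H hC he hu h) hz
    · constructor
      · intro h
        have := FU_mem H (hC.union hD) (he.add hf) hu h
        rw [mem_union] at this
        exact absurd this (not_or.2 ⟨hz, hz2⟩)
      · rintro (h | h)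
        · exact absurd (FU_mem H hC he hu h) hz
        · exact absurd (FU_mem H hD hf hu h) hz2

lemma GD_add_left (hC : Part i C) (hCD : Disjoint C D) (hf : Spt D f)
    {u : P} (hu : u ∈ C) (hl : lev u < i) : GD (e + f) u ↔ GD e u := by
  have h0 := zero_right hCD hf hu
  have h1 : ∀ z, z ⋖ u → f z = 0 := fun z hz => zero_right hCD hf (hC.dn hu hl hz)
  unfold GD
  constructor
  · rintro ⟨y, hy, hlt⟩
    refine ⟨y, hy, ?_⟩
    simpa [h0, h1 y hy] using hlt
  · rintro ⟨y, hy, hlt⟩
    refine ⟨y, hy, ?_⟩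
    simpa [h0, h1 y hy] using hlt

end two

end Pool.Agent.GaussPoset.Win
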