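import Pool.Agent.W_448co_h5.PartA

/-! Multiplicativity of the term of a configuration over disjoint parts. -/

namespace Pool.Agent.GaussPoset.Win

set_option linter.unusedSectionVars false

open Finset

universe u

variable {P : Type u} [Fintype P] [PartialOrder P] [DecidableEq P] {r : ℕ}

variable {i : ℕ} {C D : Finset P} {e f : P → ℕ}

lemma AdmL_add (hC : Part i C) (hD : Part i D) (hCD : Disjoint C D)
    (he : Spt C e) (hf : Spt D f) : AdmL i (e + f) ↔ AdmL i e ∧ AdmL i f := by
  constructor
  · intro h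
    constructor
    · rintro z hz ⟨h1, h2⟩
      have hzC := FD_mem hC he h1
      exact h z hz ⟨(FD_add hC hD hCD he hf z).2 (Or.inl h1), (GU_add_left hC hCD hf hzC).2 h2⟩
    · rintro z hz ⟨h1, h2⟩
      have hzD := FD_mem hD hf h1
      refine h z hz ⟨(FD_add hC hD hCD he hf z).2 (Or.inr h1), ?_⟩
      rw [add_comm e f]
      exact (GU_add_left hD hCD.symm he hzD).2 h2
  · rintro ⟨h1, h2⟩ z hz ⟨h3, h4⟩
    rcases (FD_add hC hD hCD he hf z).1 h3 with h5 | h5
    · exact h1 z hz ⟨h5, (GU_add_left hC hCD hf (FD_mem hC he h5)).1 h4⟩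
    · rw [add_comm e f] at h4
      exact h2 z hz ⟨h5, (GU_add_left hD hCD.symm he (FD_mem hD hf h5)).1 h4⟩

lemma AdmU_add (H : Gr P r) (hC : Part i C) (hD : Part i D) (hCD : Disjoint C D)
    (he : Spt C e) (hf : Spt D f) : AdmU i (e + f) ↔ AdmU i e ∧ AdmU i f := by
  constructor
  · intro h
    constructor
    · rintro z hz ⟨h1, h2⟩
      have hzC := FU_mem H hC he hz.le h1
      exact h z hz ⟨(FU_add H hC hD hCD he hf hz.le).2 (Or.inl h1),
        (GD_add_left hC hCD hf hzC hz).2 h2⟩
    · rintro z hz ⟨h1, h2⟩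
      have hzD := FU_mem H hD hf hz.le h1
      refine h z hz ⟨(FU_add H hC hD hCD he hf hz.le).2 (Or.inr h1), ?_⟩
      rw [add_comm e f]
      exact (GD_add_left hD hCD.symm he hzD hz).2 h2
  · rintro ⟨h1, h2⟩ z hz ⟨h3, h4⟩
    rcases (FU_add H hC hD hCD he hf hz.le).1 h3 with h5 | h5
    · exact h1 z hz ⟨h5, (GD_add_left hC hCD hf (FU_mem H hC he hz.le h5) hz).1 h4⟩
    · rw [add_comm e f] at h4
      exact h2 z hz ⟨h5, (GD_add_left hD hCD.symm he (FU_mem H hD hf hz.le h5) hz).1 h4⟩

open Classical in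
lemma AL_add (hC : Part i C) (hD : Part i D) (hCD : Disjoint C D)
    (he : Spt C e) (hf : Spt D f) : AL i (e + f) = AL i e ∪ AL i f := by
  ext v
  rw [mem_union, NormD_mem_AL, NormD_mem_AL, NormD_mem_AL, FD_add hC hD hCD he hf]
  tauto

open Classical in
lemma AU_add (H : Gr P r) (hC : Part i C) (hD : Part i D) (hCD : Disjoint C D)
    (he : Spt C e) (hf : Spt D f) : AU i (e + f) = AU i e ∪ AU i f := by
  ext v
  rw [mem_union, NormD_mem_AU, NormD_mem_AU, NormD_mem_AU]
  constructor
  · rintro ⟨h1, h2⟩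
    rcases (FU_add H hC hD hCD he hf h1.le).1 h2 with h | h
    · exact Or.inl ⟨h1, h⟩
    · exact Or.inr ⟨h1, h⟩
  · rintro (⟨h1, h2⟩ | ⟨h1, h2⟩)
    · exact ⟨h1, (FU_add H hC hD hCD he hf h1.le).2 (Or.inl h2)⟩
    · exact ⟨h1, (FU_add H hC hD hCD he hf h1.le).2 (Or.inr h2)⟩

lemma st_disj (hCD : Disjoint C D) : Disjoint (st i C) (st i D) :=
  disjoint_of_subset_left (filter_subset _ _) (disjoint_of_subset_right (filter_subset _ _) hCD)

lemma card_st_union (hCD : Disjoint C D) :
    (st i (C ∪ D)).card = (st i C).card + (st i D).card := by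
  unfold st
  rw [filter_union, card_union_of_disjoint]
  exact st_disj hCD

lemma aL_add (hC : Part i C) (hD : Part i D) (hCD : Disjoint C D)
    (he : Spt C e) (hf : Spt D f) : aL i (e + f) = aL i e + aL i f := by
  classical
  unfold aL
  rw [← card_union_of_disjoint]
  · congr 1
    ext z
    simp only [mem_filter, mem_univ, true_and, mem_union]
    rw [FD_add hC hD hCD he hf]
    tauto
  · rw [disjoint_left]
    intro z hz hz'
    simp only [mem_filter, mem_univ, true_and] at hz hz'
    exact disjoint_left.1 hCD (FD_mem hC he hz.2) (FD_mem hD hf hz'.2)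

lemma aU_add (H : Gr P r) (hC : Part i C) (hD : Part i D) (hCD : Disjoint C D)
    (he : Spt C e) (hf : Spt D f) : aU i (e + f) = aU i e + aU i f := by
  classical
  unfold aU
  rw [← card_union_of_disjoint]
  · congr 1
    ext z
    simp only [mem_filter, mem_univ, true_and, mem_union]
    constructor
    · rintro ⟨h1, h2⟩
      rcases (FU_add H hC hD hCD he hf h1.le).1 h2 with h | h
      · exact Or.inl ⟨h1, h⟩
      · exact Or.inr ⟨h1, h⟩
    · rintro (⟨h1, h2⟩ | ⟨h1, h2⟩)
      · exact ⟨h1, (FU_add H hC hD hCD he hf h1.le).2 (Or.inl h2)⟩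
      · exact ⟨h1, (FU_add H hC hD hCD he hf h1.le).2 (Or.inr h2)⟩
  · rw [disjoint_left]
    intro z hz hz'
    simp only [mem_filter, mem_univ, true_and] at hz hz'
    exact disjoint_left.1 hCD (FU_mem H hC he hz.1.le hz.2) (FU_mem H hD hf hz'.1.le hz'.2)

lemma free_low_mem (H : Gr P r) (he : Spt C e) {z : P} (h1 : i < lev z) (h2 : ¬ GU e z) :
    z ∈ C := by
  by_contra h
  exact h2 (GU_out H he h (by omega))

lemma free_up_mem (H : Gr P r) (hir : i ≤ r) (he : Spt C e) {z : P} (h1 : lev z < i)
    (h2 : ¬ GD e z) : z ∈ C := by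
  by_contra h
  exact h2 (GD_out H he h (by omega))

lemma pL_add (H : Gr P r) (hC : Part i C) (hD : Part i D) (hCD : Disjoint C D)
    (he : Spt C e) (hf : Spt D f) : pL i (e + f) = pL i e + pL i f := by
  classical
  unfold pL
  rw [← card_union_of_disjoint]
  · congr 1
    ext z
    simp only [mem_filter, mem_univ, true_and, mem_union]
    constructor
    · rintro ⟨h1, h2, h3⟩
      rw [FD_add hC hD hCD he hf, not_or] at h2
      have hz := free_low_mem H (he.add hf) h1 h3
      rcases mem_union.1 hz with hz | hz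
      · exact Or.inl ⟨h1, h2.1, fun h => h3 ((GU_add_left hC hCD hf hz).2 h)⟩
      · refine Or.inr ⟨h1, h2.2, fun h => h3 ?_⟩
        rw [add_comm e f]
        exact (GU_add_left hD hCD.symm he hz).2 h
    · rintro (⟨h1, h2, h3⟩ | ⟨h1, h2, h3⟩)
      · have hz := free_low_mem H he h1 h3
        refine ⟨h1, ?_, fun h => h3 ((GU_add_left hC hCD hf hz).1 h)⟩
        rw [FD_add hC hD hCD he hf, not_or]
        exact ⟨h2, fun h => disjoint_left.1 hCD hz (FD_mem hD hf h)⟩
      · have hz := free_low_mem H hf h1 h3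
        refine ⟨h1, ?_, fun h => h3 ?_⟩
        · rw [FD_add hC hD hCD he hf, not_or]
          exact ⟨fun h => disjoint_left.1 hCD (FD_mem hC he h) hz, h2⟩
        · rw [add_comm e f] at h
          exact (GU_add_left hD hCD.symm he hz).1 h
  · rw [disjoint_left]
    intro z hz hz'
    simp only [mem_filter, mem_univ, true_and] at hz hz'
    exact disjoint_left.1 hCD (free_low_mem H he hz.1 hz.2.2) (free_low_mem H hf hz'.1 hz'.2.2)

lemma pU_add (H : Gr P r) (hir : i ≤ r) (hC : Part i C) (hD : Part i D) (hCD : Disjoint C D)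
    (he : Spt C e) (hf : Spt D f) : pU i (e + f) = pU i e + pU i f := by
  classical
  unfold pU
  rw [← card_union_of_disjoint]
  · congr 1
    ext z
    simp only [mem_filter, mem_univ, true_and, mem_union]
    constructor
    · rintro ⟨h1, h2, h3⟩
      rw [FU_add H hC hD hCD he hf h1.le, not_or] at h2
      have hz := free_up_mem H hir (he.add hf) h1 h3
      rcases mem_union.1 hz with hz | hz
      · exact Or.inl ⟨h1, h2.1, fun h => h3 ((GD_add_left hC hCD hf hz h1).2 h)⟩
      · refine Or.inr ⟨h1, h2.2, fun h => h3 ?_⟩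
        rw [add_comm e f]
        exact (GD_add_left hD hCD.symm he hz h1).2 h
    · rintro (⟨h1, h2, h3⟩ | ⟨h1, h2, h3⟩)
      · have hz := free_up_mem H hir he h1 h3
        refine ⟨h1, ?_, fun h => h3 ((GD_add_left hC hCD hf hz h1).1 h)⟩
        rw [FU_add H hC hD hCD he hf h1.le, not_or]
        exact ⟨h2, fun h => disjoint_left.1 hCD hz (FU_mem H hD hf h1.le h)⟩
      · have hz := free_up_mem H hir hf h1 h3
        refine ⟨h1, ?_, fun h => h3 ?_⟩
        · rw [FU_add H hC hD hCD he hf h1.le, not_or]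
          exact ⟨fun h => disjoint_left.1 hCD (FU_mem H hC he h1.le h) hz, h2⟩
        · rw [add_comm e f] at h
          exact (GD_add_left hD hCD.symm he hz h1).1 h
  · rw [disjoint_left]
    intro z hz hz'
    simp only [mem_filter, mem_univ, true_and] at hz hz'
    exact disjoint_left.1 hCD (free_up_mem H hir he hz.1 hz.2.2)
      (free_up_mem H hir hf hz'.1 hz'.2.2)

theorem cw_add (H : Gr P r) (hir : i ≤ r) (hC : Part i C) (hD : Part i D) (hCD : Disjoint C D)
    (he : Spt C e) (hf : Spt D f) : cw i (e + f) = cw i e * cw i f := by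
  unfold cw
  rw [aL_add hC hD hCD he hf, aU_add H hC hD hCD he hf, pL_add H hC hD hCD he hf,
    pU_add H hir hC hD hCD he hf]
  by_cases h : AdmL i (e + f) ∧ AdmU i (e + f)
  · rw [if_pos h]
    rw [AdmL_add hC hD hCD he hf, AdmU_add H hC hD hCD he hf] at h
    rw [if_pos ⟨h.1.1, h.2.1⟩, if_pos ⟨h.1.2, h.2.2⟩]
    ring
  · rw [if_neg h]
    by_cases h1 : AdmL i e ∧ AdmU i e
    · rw [if_neg (c := AdmL i f ∧ AdmU i f), mul_zero]
      intro h2
      apply h
      rw [AdmL_add hC hD hCD he hf, AdmU_add H hC hD hCD he hf]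
      exact ⟨⟨h1.1, h2.1⟩, ⟨h1.2, h2.2⟩⟩
    · rw [if_neg h1, zero_mul]

lemma card_le_st (H : Gr P r) (hC : Part i C) (he : Spt C e)
    (hd : Disjoint (AL i e) (AU i e)) : (AL i e).card + (AU i e).card ≤ (st i C).card := by
  rw [← card_union_of_disjoint hd]
  exact card_le_card (union_subset (AL_sub hC he) (AU_sub H hC he))

theorem tC_add (H : Gr P r) (hir : i ≤ r) (hC : Part i C) (hD : Part i D) (hCD : Disjoint C D)
    (he : Spt C e) (hf : Spt D f) : tC i (C ∪ D) (e + f) = tC i C e * tC i D f := by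
  classical
  unfold tC
  rw [AL_add hC hD hCD he hf, AU_add H hC hD hCD he hf, cw_add H hir hC hD hCD he hf,
    card_st_union hCD]
  have h1 : Disjoint (AL i e) (AU i f) :=
    disjoint_of_subset_left (AL_sub hC he) (disjoint_of_subset_right (AU_sub H hD hf)
      (st_disj hCD))
  have h2 : Disjoint (AL i f) (AU i e) :=
    disjoint_of_subset_left (AL_sub hD hf) (disjoint_of_subset_right (AU_sub H hC he)
      (st_disj hCD).symm)
  have h3 : Disjoint (AL i e) (AL i f) :=
    disjoint_of_subset_left (AL_sub hC he) (disjoint_of_subset_right (AL_sub hD hf)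
      (st_disj hCD))
  have h4 : Disjoint (AU i e) (AU i f) :=
    disjoint_of_subset_left (AU_sub H hC he) (disjoint_of_subset_right (AU_sub H hD hf)
      (st_disj hCD))
  by_cases h : Disjoint (AL i e) (AU i e)
  · by_cases h' : Disjoint (AL i f) (AU i f)
    · rw [if_pos h, if_pos h', if_pos]
      · rw [card_union_of_disjoint h3, card_union_of_disjoint h4]
        have c1 := card_le_st H hC he h
        have c2 := card_le_st H hD hf h'
        have : (st i C).card + (st i D).card - ((AL i e).card + (AL i f).card) -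
            ((AU i e).card + (AU i f).card) =
            ((st i C).card - (AL i e).card - (AU i e).card) +
              ((st i D).card - (AL i f).card - (AU i f).card) := by omega
        rw [this, pow_add dd]
        ring
      · rw [disjoint_union_left, disjoint_union_right, disjoint_union_right]
        exact ⟨⟨h, h1⟩, ⟨h2, h'⟩⟩
    · rw [if_neg h', mul_zero, if_neg]
      rw [disjoint_union_left, disjoint_union_right, disjoint_union_right]
      rintro ⟨-, -, h5⟩
      exact h' h5
  · rw [if_neg h, zero_mul, if_neg]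
    rw [disjoint_union_left, disjoint_union_right, disjoint_union_right]
    rintro ⟨⟨h5, -⟩, -⟩
    exact h h5

end Pool.Agent.GaussPoset.Win
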