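import Pool.Agent.W_448co_h5.PartB

/-! The window series of a part, and its multiplicativity over disjoint parts. -/

namespace Pool.Agent.GaussPoset.Win

set_option linter.unusedSectionVars false

open Finset

universe u

variable {P : Type u} [Fintype P] [PartialOrder P] [DecidableEq P] {r : ℕ}

variable {i : ℕ} {C D : Finset P}

/-- the window series of the part `C`; the variable records the energy -/
noncomputable def ZS (i : ℕ) (C : Finset P) : PowerSeries A := PowerSeries.mk (ZC i C)

lemma coeff_ZS (i : ℕ) (C : Finset P) (n : ℕ) : PowerSeries.coeff n (ZS i C) = ZC i C n := by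
  unfold ZS; rw [PowerSeries.coeff_mk]

lemma spt_of_mem {C : Finset P} {n : ℕ} {e : P → ℕ} (h : e ∈ C.piAntidiag n) : Spt C e := by
  intro x hx
  rw [mem_piAntidiag] at h
  by_contra h0
  exact hx (h.2 x h0)

/-- the part of a configuration on `C` -/
def rst (C : Finset P) (g : P → ℕ) : P → ℕ := fun x => if x ∈ C then g x else 0

lemma rst_spt (C : Finset P) (g : P → ℕ) : Spt C (rst C g) := by
  intro x hx
  unfold rst
  rw [if_neg hx]

lemma rst_sum (C : Finset P) (g : P → ℕ) : C.sum (rst C g) = C.sum g := by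
  refine Finset.sum_congr rfl fun x hx => ?_
  unfold rst
  rw [if_pos hx]

lemma rst_add_rst (hCD : Disjoint C D) {g : P → ℕ} (hg : Spt (C ∪ D) g) :
    rst C g + rst D g = g := by
  funext x
  rw [Pi.add_apply]
  unfold rst
  by_cases h1 : x ∈ C
  · rw [if_pos h1, if_neg (disjoint_left.1 hCD h1), add_zero]
  · by_cases h2 : x ∈ D
    · rw [if_neg h1, if_pos h2, zero_add]
    · rw [if_neg h1, if_neg h2, hg x]
      rw [mem_union]
      tauto

lemma rst_left {e f : P → ℕ} (hCD : Disjoint C D) (he : Spt C e) (hf : Spt D f) :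
    rst C (e + f) = e := by
  funext x
  unfold rst
  by_cases h1 : x ∈ C
  · rw [if_pos h1, Pi.add_apply, hf x (disjoint_left.1 hCD h1), add_zero]
  · rw [if_neg h1, he x h1]

lemma sum_zero_of {e : P → ℕ} (hCD : Disjoint C D) (he : Spt C e) : D.sum e = 0 :=
  Finset.sum_eq_zero fun x hx => he x (disjoint_right.1 hCD hx)

theorem ZC_union (H : Gr P r) (hir : i ≤ r) (hC : Part i C) (hD : Part i D)
    (hCD : Disjoint C D) (n : ℕ) :
    ZC i (C ∪ D) n = ∑ p ∈ antidiagonal n, ZC i C p.1 * ZC i D p.2 := by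
  have h1 : ∑ p ∈ antidiagonal n, ZC i C p.1 * ZC i D p.2 =
      ∑ q ∈ (antidiagonal n).sigma (fun p => C.piAntidiag p.1 ×ˢ D.piAntidiag p.2),
        tC i C q.2.1 * tC i D q.2.2 := by
    rw [Finset.sum_sigma]
    refine Finset.sum_congr rfl fun p _ => ?_
    unfold ZC
    rw [Finset.sum_mul_sum, ← Finset.sum_product']
  rw [h1]
  unfold ZC
  refine Finset.sum_bij'
    (i := fun g _ => (⟨(C.sum g, D.sum g), (rst C g, rst D g)⟩ :
      Σ _ : ℕ × ℕ, (P → ℕ) × (P → ℕ)))
    (j := fun q _ => q.2.1 + q.2.2) ?_ ?_ ?_ ?_ ?_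
  · intro g hg
    have hs := spt_of_mem hg
    rw [mem_piAntidiag] at hg
    rw [mem_sigma]
    refine ⟨?_, ?_⟩
    · rw [Finset.HasAntidiagonal.mem_antidiagonal]
      simp only
      rw [← Finset.sum_union hCD]
      exact hg.1
    · rw [mem_product, mem_piAntidiag, mem_piAntidiag]
      refine ⟨⟨rst_sum C g, fun x hx => ?_⟩, ⟨rst_sum D g, fun x hx => ?_⟩⟩
      · by_contra h; exact hx (rst_spt C g x h)
      · by_contra h; exact hx (rst_spt D g x h)
  · rintro ⟨⟨a, b⟩, ⟨e, f⟩⟩ hq
    rw [mem_sigma, mem_product] at hq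
    simp only at hq
    obtain ⟨hab, he, hf⟩ := hq
    have hse := spt_of_mem he
    have hsf := spt_of_mem hf
    rw [mem_piAntidiag] at he hf
    rw [Finset.HasAntidiagonal.mem_antidiagonal] at hab
    rw [mem_piAntidiag]
    simp only
    constructor
    · have h2 := sum_zero_of hCD hse
      have h3 := sum_zero_of hCD.symm hsf
      have h4 : C.sum (e + f) = a := by
        have : C.sum (e + f) = C.sum e + C.sum f := by
          rw [← Finset.sum_add_distrib]; rfl
        rw [this, he.1, h3, add_zero]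
      have h5 : D.sum (e + f) = b := by
        have : D.sum (e + f) = D.sum e + D.sum f := by
          rw [← Finset.sum_add_distrib]; rfl
        rw [this, hf.1, h2, zero_add]
      rw [Finset.sum_union hCD, h4, h5]
      exact hab
    · intro x hx
      by_contra h
      exact hx ((hse.add hsf) x h)
  · intro g hg
    exact rst_add_rst hCD (spt_of_mem hg)
  · rintro ⟨⟨a, b⟩, ⟨e, f⟩⟩ hq
    rw [mem_sigma, mem_product] at hq
    simp only at hq
    obtain ⟨hab, he, hf⟩ := hq
    have hse := spt_of_mem he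
    have hsf := spt_of_mem hf
    rw [mem_piAntidiag] at he hf
    have h2 := sum_zero_of hCD hse
    have h3 := sum_zero_of hCD.symm hsf
    have h4 : C.sum (e + f) = a := by
      have : C.sum (e + f) = C.sum e + C.sum f := by
        rw [← Finset.sum_add_distrib]; rfl
      rw [this, he.1, h3, add_zero]
    have h5 : D.sum (e + f) = b := by
      have : D.sum (e + f) = D.sum e + D.sum f := by
        rw [← Finset.sum_add_distrib]; rfl
      rw [this, hf.1, h2, zero_add]
    have h6 : rst C (e + f) = e := rst_left hCD hse hsf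
    have h7 : rst D (e + f) = f := by
      rw [add_comm e f]
      exact rst_left hCD.symm hsf hse
    simp only [h4, h5, h6, h7]
  · intro g hg
    have hs := spt_of_mem hg
    simp only
    rw [← tC_add H hir hC hD hCD (rst_spt C g) (rst_spt D g), rst_add_rst hCD hs]

theorem ZS_union (H : Gr P r) (hir : i ≤ r) (hC : Part i C) (hD : Part i D)
    (hCD : Disjoint C D) : ZS i (C ∪ D) = ZS i C * ZS i D := by
  ext1 n
  rw [coeff_ZS, PowerSeries.coeff_mul, ZC_union H hir hC hD hCD]
  simp only [coeff_ZS]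

lemma FD_zero (z : P) : ¬ FD (0 : P → ℕ) z := by
  rintro ⟨_, _, h⟩
  exact absurd h (lt_irrefl _)

lemma FU_zero (z : P) : ¬ FU (0 : P → ℕ) z := by
  rintro ⟨_, _, h⟩
  exact absurd h (lt_irrefl _)

/-- the term of the zero configuration -/
theorem tC_zero (H : Gr P r) (hir : i ≤ r) (C : Finset P) :
    tC i C (0 : P → ℕ) = dd ^ (st i C).card := by
  classical
  have h1 : AL i (0 : P → ℕ) = ∅ := by
    ext v
    rw [NormD_mem_AL]
    simp [FD_zero]
  have h2 : AU i (0 : P → ℕ) = ∅ := by
    ext v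
    rw [NormD_mem_AU]
    simp [FU_zero]
  have h3 : AdmL i (0 : P → ℕ) := fun z _ h => FD_zero z h.1
  have h4 : AdmU i (0 : P → ℕ) := fun z _ h => FU_zero z h.1
  have h5 : aL i (0 : P → ℕ) = 0 := by
    unfold aL
    rw [Finset.card_eq_zero, Finset.filter_eq_empty_iff]
    rintro z - ⟨_, h⟩
    exact FD_zero z h
  have h6 : aU i (0 : P → ℕ) = 0 := by
    unfold aU
    rw [Finset.card_eq_zero, Finset.filter_eq_empty_iff]
    rintro z - ⟨_, h⟩
    exact FU_zero z h
  have hs : Spt (∅ : Finset P) (0 : P → ℕ) := fun _ _ => rfl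
  have h7 : pL i (0 : P → ℕ) = 0 := by
    unfold pL
    rw [Finset.card_eq_zero, Finset.filter_eq_empty_iff]
    rintro z - ⟨h, _, h'⟩
    exact absurd (free_low_mem H hs h h') (Finset.notMem_empty _)
  have h8 : pU i (0 : P → ℕ) = 0 := by
    unfold pU
    rw [Finset.card_eq_zero, Finset.filter_eq_empty_iff]
    rintro z - ⟨h, _, h'⟩
    exact absurd (free_up_mem H hir hs h h') (Finset.notMem_empty _)
  have h9 : cw i (0 : P → ℕ) = 1 := by
    unfold cw
    rw [if_pos ⟨h3, h4⟩, h5, h6, h7, h8]
    simp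
  unfold tC
  rw [h9, h1, h2, if_pos (disjoint_empty_left _)]
  simp

theorem ZC_zero (H : Gr P r) (hir : i ≤ r) (C : Finset P) :
    ZC i C 0 = dd ^ (st i C).card := by
  unfold ZC
  rw [Finset.piAntidiag_zero, Finset.sum_singleton, tC_zero H hir]

theorem ZS_empty (H : Gr P r) (hir : i ≤ r) : ZS i (∅ : Finset P) = 1 := by
  ext1 n
  rw [coeff_ZS]
  rcases Nat.eq_zero_or_pos n with rfl | hn
  · rw [ZC_zero H hir]
    simp [st]
  · unfold ZC
    rw [Finset.piAntidiag_empty_of_ne_zero (by omega), Finset.sum_empty,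
      PowerSeries.coeff_one, if_neg (by omega)]

theorem Part.biUnion {ι : Type*} [DecidableEq ι] (s : Finset ι) (c : ι → Finset P)
    (hc : ∀ a ∈ s, Part i (c a)) : Part i (s.biUnion c) where
  up := by
    intro x y hx hxy
    rw [mem_biUnion] at hx ⊢
    obtain ⟨a, ha, hxa⟩ := hx
    exact ⟨a, ha, (hc a ha).up hxa hxy⟩
  dn := by
    intro x y hy hl hxy
    rw [mem_biUnion] at hy ⊢
    obtain ⟨a, ha, hya⟩ := hy
    exact ⟨a, ha, (hc a ha).dn hya hl hxy⟩

/-- FACTORISATION of the window series over pairwise disjoint parts -/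
theorem ZS_biUnion (H : Gr P r) (hir : i ≤ r) {ι : Type*} [DecidableEq ι] (s : Finset ι)
    (c : ι → Finset P) (hc : ∀ a ∈ s, Part i (c a))
    (hd : ∀ a ∈ s, ∀ b ∈ s, a ≠ b → Disjoint (c a) (c b)) :
    ZS i (s.biUnion c) = ∏ a ∈ s, ZS i (c a) := by
  induction s using Finset.induction_on with
  | empty => rw [Finset.biUnion_empty, Finset.prod_empty, ZS_empty H hir]
  | insert a s ha ih =>
    rw [Finset.biUnion_insert, Finset.prod_insert ha, ZS_union H hir, ih]
    · exact fun b hb => hc b (mem_insert_of_mem hb)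
    · exact fun b hb b' hb' => hd b (mem_insert_of_mem hb) b' (mem_insert_of_mem hb')
    · exact hc a (mem_insert_self a s)
    · exact Part.biUnion s c fun b hb => hc b (mem_insert_of_mem hb)
    · rw [disjoint_biUnion_right]
      intro b hb
      refine hd a (mem_insert_self a s) b (mem_insert_of_mem hb) ?_
      rintro rfl
      exact ha hb

end Pool.Agent.GaussPoset.Win
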